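import Mathlib

set_option autoImplicit false

/-!
Helical tableaux.
-/

namespace Pool.Agent.MP_fed7c7_lc.H93

/-- Letters: cell `g` is `2 * g + 2`, the header at position `N` is `1`, the blank is `0`. -/
def lt (N : ℕ) (G : ℕ → ℕ) (i : ℕ) : ℕ := if i < N then 2 * G i + 2 else if i = N then 1 else 0

/-- The shift by `k`, with blanks at the start. -/
def sh (k : ℕ) (F : ℕ → ℕ) (i : ℕ) : ℕ := if k ≤ i then F (i - k) else 0

/-- A word with rows of length `k` which starts with `f, c, .., c, e` (`a` letters `c`) and all of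
whose windows are allowed by `W`. -/
def Tab (r f c e : ℕ) (W : ℕ → ℕ → ℕ → ℕ → Prop) (a : ℕ) : Prop :=
  ∃ (k N : ℕ) (G : ℕ → ℕ), 1 ≤ k ∧ a + 2 ≤ N ∧ G 0 = f ∧ (∀ i, 1 ≤ i → i ≤ a → G i = c) ∧
    G (a + 1) = e ∧ (∀ i < N, G i < r) ∧ ∀ i, 1 ≤ i → i ≤ N →
      W (lt N G i) (sh k (lt N G) i) (sh 1 (lt N G) i) (sh (k + 1) (lt N G) i)

end Pool.Agent.MP_fed7c7_lc.H93
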