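import Mathlib

set_option autoImplicit false

/-!
Integer power series with exponentially bounded coefficients, and the solution of
`g = h + D * g ^ B`.
-/

namespace Pool.Agent.MP_fed7c7_lc.H93

open PowerSeries Finset

/-- Exponentially bounded coefficients. -/
def EB (f : ℤ⟦X⟧) : Prop := ∃ g : ℝ, 1 ≤ g ∧ ∀ m, |((coeff m f : ℤ) : ℝ)| ≤ g ^ (m + 1)

theorem EB.add {f g : ℤ⟦X⟧} (hf : EB f) (hg : EB g) : EB (f + g) := by
  obtain ⟨a, a1, ha⟩ := hf
  obtain ⟨b, b1, hb⟩ := hg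
  refine ⟨a + b, by linarith, fun m => ?_⟩
  rw [map_add, Int.cast_add]
  exact ((abs_add_le _ _).trans (add_le_add (ha m) (hb m))).trans
    (pow_add_pow_le (by linarith) (by linarith) (by omega))

theorem EB.neg {f : ℤ⟦X⟧} (hf : EB f) : EB (-f) := by
  obtain ⟨a, a1, ha⟩ := hf
  exact ⟨a, a1, fun m => by simpa using ha m⟩

theorem EB.sub {f g : ℤ⟦X⟧} (hf : EB f) (hg : EB g) : EB (f - g) :=
  sub_eq_add_neg f g ▸ hf.add hg.neg

theorem EB.mul {f g : ℤ⟦X⟧} (hf : EB f) (hg : EB g) : EB (f * g) := by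
  obtain ⟨a, a1, ha⟩ := hf
  obtain ⟨b, b1, hb⟩ := hg
  have ab : 1 ≤ a * b := one_le_mul_of_one_le_of_one_le a1 b1
  refine ⟨2 * (a * b), by linarith, fun m => ?_⟩
  rw [coeff_mul, Int.cast_sum]
  refine (abs_sum_le_sum_abs _ _).trans ((sum_le_card_nsmul _ _ ((a * b) ^ (m + 1))
    fun p hp => ?_).trans ?_)
  · have := mem_antidiagonal.1 hp
    rw [Int.cast_mul, abs_mul, mul_pow]
    exact mul_le_mul ((ha _).trans (pow_le_pow_right₀ a1 (by omega)))
      ((hb _).trans (pow_le_pow_right₀ b1 (by omega))) (abs_nonneg _) (by positivity)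
  · rw [Nat.card_antidiagonal, nsmul_eq_mul, mul_pow 2]
    refine mul_le_mul_of_nonneg_right ?_ (by positivity)
    exact_mod_cast (m + 1).lt_two_pow_self.le

theorem EB.of_le {f : ℤ⟦X⟧} (h : ∀ m, |coeff m f| ≤ 1) : EB f :=
  ⟨1, le_rfl, fun m => by rw [one_pow]; exact_mod_cast h m⟩

theorem EB.const (c : ℤ) : EB (C c) :=
  ⟨|c| + 1, by simp, fun m => by
    rw [coeff_C]
    split_ifs with h
    · subst h; simp
    · simp only [Int.cast_zero, abs_zero]; positivity⟩

theorem EB.one : EB 1 := EB.const 1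

theorem EB.zero : EB 0 := EB.of_le (by simp)

theorem EB.var : EB X := EB.of_le fun m => by rw [coeff_X]; split_ifs <;> simp

theorem EB.pow {f : ℤ⟦X⟧} (hf : EB f) (n : ℕ) : EB (f ^ n) := by
  induction n with
  | zero => simpa using EB.one
  | succ n ih => exact pow_succ f n ▸ ih.mul hf

/-- Partial weighted norm. -/
noncomputable def nr (r : ℝ) (f : ℤ⟦X⟧) (M : ℕ) : ℝ :=
  ∑ m ∈ range M, |((coeff m f : ℤ) : ℝ)| * r ^ m

theorem nr_nonneg {r : ℝ} (hr : 0 ≤ r) (f : ℤ⟦X⟧) (M : ℕ) : 0 ≤ nr r f M :=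
  sum_nonneg fun _ _ => by positivity

theorem nr_add {r : ℝ} (hr : 0 ≤ r) (f g : ℤ⟦X⟧) (M : ℕ) :
    nr r (f + g) M ≤ nr r f M + nr r g M := by
  rw [nr, nr, nr, ← sum_add_distrib]
  refine sum_le_sum fun m _ => ?_
  rw [← add_mul, map_add, Int.cast_add]
  exact mul_le_mul_of_nonneg_right (abs_add_le _ _) (by positivity)

theorem nr_mul {r : ℝ} (hr : 0 ≤ r) (f g : ℤ⟦X⟧) (M : ℕ) :
    nr r (f * g) M ≤ nr r f M * nr r g M := by
  rw [nr, nr, nr, sum_mul_sum, ← sum_product']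
  set F := fun p : ℕ × ℕ => |((coeff p.1 f : ℤ) : ℝ)| * r ^ p.1 * (|((coeff p.2 g : ℤ) : ℝ)| * r ^ p.2)
  calc _ ≤ ∑ m ∈ range M, ∑ p ∈ antidiagonal m, F p := by
        refine sum_le_sum fun m _ => ?_
        rw [coeff_mul, Int.cast_sum]
        refine (mul_le_mul_of_nonneg_right (abs_sum_le_sum_abs _ _) (by positivity)).trans ?_
        rw [sum_mul]
        refine sum_le_sum fun p hp => le_of_eq ?_
        rw [← mem_antidiagonal.1 hp, Int.cast_mul, abs_mul, pow_add]
        ring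
    _ = ∑ p ∈ (range M).biUnion antidiagonal, F p := by
        rw [sum_biUnion]
        intro i _ j _ hij
        refine disjoint_left.2 fun p h1 h2 => hij ?_
        rw [← mem_antidiagonal.1 h1, ← mem_antidiagonal.1 h2]
    _ ≤ _ := by
        refine sum_le_sum_of_subset_of_nonneg (fun p hp => ?_) fun _ _ _ => by positivity
        obtain ⟨m, hm, hp⟩ := mem_biUnion.1 hp
        have := mem_antidiagonal.1 hp
        have := mem_range.1 hm
        exact mem_product.2 ⟨mem_range.2 (by omega), mem_range.2 (by omega)⟩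

theorem nr_pow {r : ℝ} (hr : 0 ≤ r) (f : ℤ⟦X⟧) (M n : ℕ) :
    nr r (f ^ (n + 1)) M ≤ nr r f M ^ (n + 1) := by
  induction n with
  | zero => simp
  | succ n ih =>
    rw [pow_succ, pow_succ _ (n + 1)]
    exact (nr_mul hr _ _ _).trans (mul_le_mul_of_nonneg_right ih (nr_nonneg hr _ _))

theorem nr_congr (r : ℝ) {f g : ℤ⟦X⟧} {M : ℕ} (h : X ^ M ∣ f - g) : nr r f M = nr r g M := by
  refine sum_congr rfl fun m hm => ?_
  have := X_pow_dvd_iff.1 h m (mem_range.1 hm)
  rw [map_sub, sub_eq_zero] at this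
  rw [this]

theorem geo_tail {a : ℕ → ℝ} {g r : ℝ} (hg : 0 ≤ g) (hr : 0 ≤ r) (h : g * r ≤ 1 / 2)
    (ha : ∀ m, |a m| ≤ g ^ (m + 1)) (k M : ℕ) :
    ∑ i ∈ range M, |a (i + k)| * r ^ (i + k) ≤ 2 * g ^ (k + 1) * r ^ k := by
  calc _ ≤ ∑ i ∈ range M, g ^ (k + 1) * r ^ k * (1 / 2) ^ i := by
        refine sum_le_sum fun i _ => ?_
        calc _ ≤ g ^ (i + k + 1) * r ^ (i + k) :=
              mul_le_mul_of_nonneg_right (ha _) (by positivity)
          _ = g ^ (k + 1) * r ^ k * (g * r) ^ i := by ring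
          _ ≤ _ := mul_le_mul_of_nonneg_left (pow_le_pow_left₀ (by positivity) h i)
              (by positivity)
    _ ≤ g ^ (k + 1) * r ^ k * 2 := by
        rw [← mul_sum]
        exact mul_le_mul_of_nonneg_left (sum_geometric_two_le M) (by positivity)
    _ = _ := by ring

theorem nr_le {f : ℤ⟦X⟧} {g r : ℝ} (hg : 0 ≤ g) (hr : 0 ≤ r) (h : g * r ≤ 1 / 2)
    (ha : ∀ m, |((coeff m f : ℤ) : ℝ)| ≤ g ^ (m + 1)) {k : ℕ} (hk : X ^ k ∣ f) (M : ℕ) :
    nr r f M ≤ 2 * g ^ (k + 1) * r ^ k := by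
  refine le_trans ?_ (geo_tail hg hr h ha k M)
  calc _ ≤ nr r f (k + M) := sum_le_sum_of_subset_of_nonneg (range_subset_range.2 (by omega))
          fun _ _ _ => by positivity
    _ = _ := by
      rw [nr, sum_range_add, sum_eq_zero fun m hm => by
        simp [X_pow_dvd_iff.1 hk m (mem_range.1 hm)], zero_add]
      simp only [add_comm k]

section
variable {R : Type} [CommRing R]

theorem key_pow {a b : R⟦X⟧} (ha : X ∣ a) (hb : X ∣ b) {k : ℕ} (h : X ^ k ∣ a - b) (n : ℕ) :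
    X ^ (k + 1) ∣ a ^ (n + 2) - b ^ (n + 2) := by
  rw [← Commute.mul_geom_sum₂ (Commute.all a b), pow_succ]
  refine mul_dvd_mul h (dvd_sum fun i _ => ?_)
  rcases i with _ | i
  · exact (hb.trans (dvd_pow_self b (by omega))).mul_left _
  · exact (ha.trans (dvd_pow_self a (by omega))).mul_right _

theorem eq_of_dvd {a b : R⟦X⟧} (h : ∀ k, X ^ k ∣ a - b) : a = b := by
  ext m
  have := X_pow_dvd_iff.1 (h (m + 1)) m (by omega)
  rwa [map_sub, sub_eq_zero] at this

theorem fix_unique {h D a b : R⟦X⟧} {n : ℕ} (ha : X ∣ a) (hb : X ∣ b)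
    (ea : a = h + D * a ^ (n + 2)) (eb : b = h + D * b ^ (n + 2)) : a = b := by
  refine eq_of_dvd fun k => ?_
  induction k with
  | zero => simp
  | succ k ih =>
    have : a - b = D * (a ^ (n + 2) - b ^ (n + 2)) := by linear_combination ea - eb
    rw [this]
    exact (key_pow ha hb ih n).mul_left _

theorem fix_exists {h : R⟦X⟧} (hh : X ∣ h) (D : R⟦X⟧) (n : ℕ) :
    ∃ g : R⟦X⟧, X ∣ g ∧ g = h + D * g ^ (n + 2) := by
  obtain ⟨G, e0, e⟩ : ∃ G : ℕ → R⟦X⟧, G 0 = 0 ∧ ∀ k, G (k + 1) = h + D * G k ^ (n + 2) :=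
    ⟨fun k => Nat.rec 0 (fun _ x => h + D * x ^ (n + 2)) k, rfl, fun _ => rfl⟩
  have d0 : ∀ k, X ∣ G k := fun k => by
    induction k with
    | zero => rw [e0]; exact dvd_zero _
    | succ k ih =>
      rw [e k]
      exact hh.add ((ih.trans (dvd_pow_self _ (by omega))).mul_left _)
  have d1 : ∀ k, X ^ k ∣ G (k + 1) - G k := fun k => by
    induction k with
    | zero => simp
    | succ k ih =>
      rw [e (k + 1), e k, add_sub_add_left_eq_sub, ← mul_sub, ← e k]
      exact (key_pow (d0 _) (d0 _) ih n).mul_left _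
  have d2 : ∀ k j, X ^ k ∣ G (k + j) - G k := fun k j => by
    induction j with
    | zero => simp
    | succ j ih =>
      have := ((pow_dvd_pow X (Nat.le_add_right k j)).trans (d1 (k + j))).add ih
      rwa [sub_add_sub_cancel] at this
  let g : R⟦X⟧ := mk fun m => coeff m (G (m + 1))
  have d3 : ∀ k, X ^ k ∣ g - G k := fun k => X_pow_dvd_iff.2 fun m hm => by
    obtain ⟨j, rfl⟩ := Nat.exists_eq_add_of_le (show m + 1 ≤ k from hm)
    have := X_pow_dvd_iff.1 (d2 (m + 1) j) m (by omega)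
    rw [map_sub, sub_eq_zero] at this ⊢
    rw [this, coeff_mk]
  have d4 : X ∣ g := by
    have h1 := d3 1
    rw [pow_one] at h1
    have := h1.add (d0 1)
    rwa [sub_add_cancel] at this
  refine ⟨g, d4, eq_of_dvd fun k => ?_⟩
  have := (d3 (k + 1)).sub ((key_pow d4 (d0 k) (d3 k) n).mul_left D)
  rw [e k] at this
  refine (pow_dvd_pow X (Nat.le_succ k)).trans (this.trans (dvd_of_eq ?_))
  ring

end

theorem EB.fix {h D g : ℤ⟦X⟧} {n : ℕ} (hh : X ∣ h) (hg : X ∣ g) (e : g = h + D * g ^ (n + 2))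
    (h1 : EB h) (h2 : EB D) : EB g := by
  obtain ⟨a, a1, ha⟩ := h1
  obtain ⟨b, b1, hb⟩ := h2
  set c := a + b with hc
  have c1 : 1 ≤ c := by linarith
  have ha' : ∀ m, |((coeff m h : ℤ) : ℝ)| ≤ c ^ (m + 1) := fun m =>
    (ha m).trans (pow_le_pow_left₀ (by linarith) (by linarith) _)
  have hb' : ∀ m, |((coeff m D : ℤ) : ℝ)| ≤ c ^ (m + 1) := fun m =>
    (hb m).trans (pow_le_pow_left₀ (by linarith) (by linarith) _)
  have c3 : c ≤ c ^ 3 := le_self_pow₀ c1 (by omega)
  set r := 1 / (16 * c ^ 3) with hr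
  have r0 : 0 < r := by positivity
  have r1 : c * r ≤ 1 / 2 := by
    rw [hr, mul_one_div, div_le_iff₀ (by positivity)]; linarith
  set s := 1 / (4 * c) with hs
  have s0 : 0 < s := by positivity
  have s1 : s ≤ 1 := by rw [hs, div_le_one (by positivity)]; linarith
  have key : ∀ M, nr r g M ≤ s := fun M => by
    induction M with
    | zero => simp [nr, s0.le]
    | succ M ih =>
      set u : ℤ⟦X⟧ := (trunc M g : ℤ⟦X⟧) with hu
      have u1 : X ^ M ∣ g - u := X_pow_dvd_iff.2 fun m hm => by simp [hu, coeff_trunc, hm]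
      have u2 : nr r u (M + 1) = nr r g M := by
        rw [nr_congr r u1, nr, sum_range_succ]
        simp [hu, coeff_trunc, nr]
      have u3 : X ∣ u := X_dvd_iff.2 (by
        rw [← coeff_zero_eq_constantCoeff_apply, hu, Polynomial.coeff_coe, coeff_trunc]
        split_ifs
        · rw [coeff_zero_eq_constantCoeff_apply]; exact X_dvd_iff.1 hg
        · rfl)
      have u4 : X ^ (M + 1) ∣ g - (h + D * u ^ (n + 2)) := by
        refine ((key_pow hg u3 u1 n).mul_left D).trans (dvd_of_eq ?_)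
        linear_combination -e
      rw [nr_congr r u4]
      have v1 := nr_le (by linarith) r0.le r1 ha' (k := 1) (by simpa using hh) (M + 1)
      have v2 := nr_le (by linarith) r0.le r1 hb' (k := 0) (by simp) (M + 1)
      have v3 : nr r (u ^ (n + 2)) (M + 1) ≤ s ^ 2 := by
        refine (nr_pow r0.le u _ (n + 1)).trans ?_
        rw [u2]
        exact (pow_le_pow_left₀ (nr_nonneg r0.le _ _) ih _).trans
          (pow_le_pow_of_le_one s0.le s1 (by omega))
      have v4 := (nr_mul r0.le D (u ^ (n + 2)) (M + 1)).trans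
        (mul_le_mul v2 v3 (nr_nonneg r0.le _ _) (by positivity))
      refine (nr_add r0.le _ _ _).trans ((add_le_add v1 v4).trans (le_of_eq ?_))
      rw [hr, hs]
      field_simp
      ring
  refine ⟨16 * c ^ 3, by linarith, fun m => ?_⟩
  have w1 : |((coeff m g : ℤ) : ℝ)| * r ^ m ≤ 1 :=
    ((single_le_sum (f := fun m => |((coeff m g : ℤ) : ℝ)| * r ^ m) (fun _ _ => by positivity)
      (mem_range.2 (Nat.lt_succ_self m))).trans (key (m + 1))).trans s1
  rw [hr, one_div, inv_pow, ← div_eq_mul_inv, div_le_one (by positivity)] at w1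
  exact w1.trans (pow_le_pow_right₀ (by linarith) (by omega))

end Pool.Agent.MP_fed7c7_lc.H93
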