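import Mathlib
import Pool.Agent.MP_fed7c7_lc.H93.Series

set_option autoImplicit false

/-!
Sets accepted by chain automata are read modulo `3` by algebraic integer power series.
-/

namespace Pool.Agent.MP_fed7c7_lc.H93

open PowerSeries Finset

/-- The series `X / (1 + X ^ 2)`. -/
noncomputable def ss : ℤ⟦X⟧ := mk fun m => if m % 2 = 1 then (-1) ^ (m / 2) else 0

theorem ss_mul : ss * (1 + X ^ 2) = X := by
  ext m
  rw [mul_add, mul_one, map_add, coeff_mul_X_pow', coeff_X]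
  rcases m with _ | _ | m
  · simp [ss]
  · simp [ss]
  · rw [if_pos (by omega), if_neg (by omega)]
    simp only [ss, coeff_mk]
    rw [show m + 1 + 1 - 2 = m by omega, show (m + 1 + 1) % 2 = m % 2 by omega,
      show (m + 1 + 1) / 2 = m / 2 + 1 by omega]
    split_ifs
    · ring
    · rfl

theorem EB.ss : EB ss := EB.of_le fun m => by
  simp only [H93.ss, coeff_mk]
  split_ifs <;> simp

/-- The ring generated by `ss`. -/
noncomputable abbrev RS : Subalgebra ℤ ℤ⟦X⟧ := Algebra.adjoin ℤ {ss}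

/-- Exponentially bounded and algebraic. -/
def Nice (f : ℤ⟦X⟧) : Prop := EB f ∧ IsAlgebraic RS f

theorem Nice.add {f g : ℤ⟦X⟧} (hf : Nice f) (hg : Nice g) : Nice (f + g) :=
  ⟨hf.1.add hg.1, hf.2.add hg.2⟩

theorem Nice.mul {f g : ℤ⟦X⟧} (hf : Nice f) (hg : Nice g) : Nice (f * g) :=
  ⟨hf.1.mul hg.1, hf.2.mul hg.2⟩

theorem Nice.pow {f : ℤ⟦X⟧} (hf : Nice f) (n : ℕ) : Nice (f ^ n) := ⟨hf.1.pow n, hf.2.pow n⟩

theorem Nice.one : Nice 1 := ⟨EB.one, isAlgebraic_one⟩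

theorem Nice.zero : Nice 0 := ⟨EB.zero, isAlgebraic_zero⟩

theorem alg_root {R : Subalgebra ℤ ℤ⟦X⟧} (h D : R) {g : ℤ⟦X⟧} {n : ℕ}
    (e : g = h + D * g ^ (n + 2)) : IsAlgebraic R g := by
  refine ⟨Polynomial.C h + Polynomial.C D * Polynomial.X ^ (n + 2) - Polynomial.X, fun z => ?_, ?_⟩
  · have := congrArg (fun p => Polynomial.coeff p 1) z
    simp [Polynomial.coeff_X_pow] at this
  · simp only [map_sub, map_add, map_mul, map_pow, Polynomial.aeval_C, Polynomial.aeval_X]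
    exact sub_eq_zero.2 e.symm

theorem Nice.var : Nice X :=
  ⟨EB.var, alg_root (n := 0) ⟨ss, Algebra.self_mem_adjoin_singleton ℤ ss⟩
    ⟨ss, Algebra.self_mem_adjoin_singleton ℤ ss⟩ (by linear_combination -ss_mul)⟩

theorem Nice.fix {h D g : ℤ⟦X⟧} {n : ℕ} (hh : X ∣ h) (hg : X ∣ g) (e : g = h + D * g ^ (n + 2))
    (h1 : Nice h) (h2 : Nice D) : Nice g := by
  refine ⟨EB.fix hh hg e h1.1 h2.1, ?_⟩
  let R := Subalgebra.algebraicClosure RS ℤ⟦X⟧
  have : IsAlgebraic R g :=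
    alg_root (R := R.restrictScalars ℤ) (n := n) ⟨h, h1.2⟩ ⟨D, h2.2⟩ e
  exact this.restrictScalars RS

open Classical in
/-- The indicator series. -/
noncomputable def ind (T : ℕ → Prop) : (ZMod 3)⟦X⟧ := mk fun m => if T m then 1 else 0

open Classical in
/-- The polynomial of a digit set. -/
noncomputable def dg (R : Type) [CommRing R] (B : ℕ) (E : ℕ → Prop) : R⟦X⟧ :=
  ∑ d ∈ (range B).filter E, X ^ d

theorem Nice.dg (B : ℕ) (E : ℕ → Prop) : Nice (dg ℤ B E) :=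
  sum_induction _ Nice (fun _ _ => Nice.add) Nice.zero fun d _ => Nice.var.pow d

theorem map_dg (B : ℕ) (E : ℕ → Prop) :
    map (Int.castRingHom (ZMod 3)) (dg ℤ B E) = dg (ZMod 3) B E := by
  simp [dg, map_sum]

open Classical in
theorem coeff_dg (w : ℕ) (E : ℕ → Prop) (F : (ZMod 3)⟦X⟧) (m : ℕ) :
    coeff m (dg (ZMod 3) (3 ^ w) E * F ^ 3 ^ w) =
      if E (m % 3 ^ w) then coeff (m / 3 ^ w) F else 0 := by
  have B0 : 0 < 3 ^ w := by positivity
  have e : F ^ 3 ^ w = expand (3 ^ w) B0.ne' F := by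
    have : ExpChar (ZMod 3) 3 := ExpChar.prime Nat.prime_three
    have h := MvPowerSeries.map_iterateFrobenius_expand 3 (by omega) F w
    rw [show iterateFrobenius (ZMod 3) 3 w = RingHom.id _ from Subsingleton.elim _ _,
      MvPowerSeries.map_id] at h
    exact h.symm
  generalize 3 ^ w = B at *
  rw [e, dg, sum_mul, map_sum, sum_filter, sum_eq_single (m % B)]
  · split_ifs
    · rw [coeff_X_pow_mul', if_pos (Nat.mod_le _ _), coeff_expand,
        show m - m % B = B * (m / B) by have := Nat.mod_add_div m B; omega,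
        if_pos (dvd_mul_right _ _), Nat.mul_div_cancel_left _ B0]
    · rfl
  · intro d hd hne
    split_ifs
    · rw [coeff_X_pow_mul']
      split_ifs with h
      · refine coeff_expand_of_not_dvd _ _ _ fun g => hne ?_
        have := (Nat.modEq_iff_dvd' h).2 g
        rw [Nat.ModEq, Nat.mod_eq_of_lt (mem_range.1 hd)] at this
        exact this
      · rfl
    · rfl
  · intro h
    exact absurd (mem_range.2 (Nat.mod_lt _ B0)) h

/-- Sets read by a nice series. -/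
def Good (T : ℕ → Prop) : Prop :=
  ∃ g, Nice g ∧ map (Int.castRingHom (ZMod 3)) g = ind T ∧ (¬T 0 → X ∣ g)

theorem Good.congr {T U : ℕ → Prop} (h : Good T) (e : ∀ m, T m ↔ U m) : Good U :=
  (funext fun m => propext (e m) : T = U) ▸ h

theorem Good.zero : Good (· = 0) :=
  ⟨1, Nice.one, by ext m; simp [ind, coeff_one], fun h => absurd rfl h⟩

theorem Good.or {T U : ℕ → Prop} (hT : Good T) (hU : Good U) (hd : ∀ m, ¬(T m ∧ U m)) :
    Good fun m => T m ∨ U m := by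
  obtain ⟨f, f1, f2, f3⟩ := hT
  obtain ⟨g, g1, g2, g3⟩ := hU
  refine ⟨f + g, f1.add g1, ?_, fun h => (f3 fun e => h (.inl e)).add (g3 fun e => h (.inr e))⟩
  rw [map_add, f2, g2]
  ext m
  have := hd m
  by_cases h1 : T m <;> by_cases h2 : U m <;> simp_all [ind]

theorem Good.step {w : ℕ} (hw : 1 ≤ w) {U T E L : ℕ → Prop} (hU : Good U) (h0 : ¬T 0)
    (hT : ∀ m, T m ↔ L (m % 3 ^ w) ∧ T (m / 3 ^ w) ∨ E (m % 3 ^ w) ∧ U (m / 3 ^ w))
    (hd : ∀ m, ¬((L (m % 3 ^ w) ∧ T (m / 3 ^ w)) ∧ E (m % 3 ^ w) ∧ U (m / 3 ^ w))) : Good T := by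
  classical
  obtain ⟨f, f1, f2, f3⟩ := hU
  obtain ⟨n, hn⟩ : ∃ n, 3 ^ w = n + 2 :=
    Nat.exists_eq_add_of_le' ((by norm_num : 2 ≤ 3 ^ 1).trans (Nat.pow_le_pow_right (by omega) hw))
  have hh : X ∣ dg ℤ (3 ^ w) E * f ^ 3 ^ w := by
    by_cases h : U 0
    · refine Dvd.dvd.mul_right (dvd_sum fun d hd => dvd_pow_self _ ?_) _
      rintro rfl
      exact h0 ((hT 0).2 (.inr (by simpa using ⟨(mem_filter.1 hd).2, h⟩)))
    · exact ((f3 h).trans (dvd_pow_self _ (by omega))).mul_left _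
  obtain ⟨g, g1, g2⟩ := fix_exists hh (dg ℤ (3 ^ w) L) n
  refine ⟨g, Nice.fix hh g1 g2 ((Nice.dg _ _).mul (f1.pow _)) (Nice.dg _ _), ?_, fun _ => g1⟩
  refine fix_unique (h := dg (ZMod 3) (3 ^ w) E * ind U ^ 3 ^ w) (D := dg (ZMod 3) (3 ^ w) L)
    (n := n) ?_ (X_dvd_iff.2 (by simp [ind, h0])) ?_ ?_
  · simpa using map_dvd (map (Int.castRingHom (ZMod 3))) g1
  · have := congrArg (map (Int.castRingHom (ZMod 3))) g2
    rwa [map_add, map_mul, map_mul, map_pow, map_pow, map_dg, map_dg, f2] at this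
  · ext m
    rw [← hn, map_add, coeff_dg, coeff_dg]
    have h1 := hT m
    have h2 := hd m
    simp only [ind, coeff_mk]
    generalize m % 3 ^ w = a at *
    generalize m / 3 ^ w = b at *
    clear hT hd
    by_cases c1 : L a <;> by_cases c2 : T b <;> by_cases c3 : E a <;> by_cases c4 : U b <;>
      simp only [c1, c2, c3, c4] at h1 h2 ⊢ <;> simp at h1 h2 ⊢ <;> simp [h1]

/-- The digit of `Y` at position `i` in base `B`. -/
def dig (B Y i : ℕ) : ℕ := Y / B ^ i % B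

theorem dig_zero (B Y : ℕ) : dig B Y 0 = Y % B := by simp [dig]

theorem dig_div (B Y i j : ℕ) : dig B (Y / B ^ j) i = dig B Y (j + i) := by
  rw [dig, dig, Nat.div_div_eq_div_mul, pow_add]

theorem dig_succ (B Y i : ℕ) : dig B Y (i + 1) = dig B (Y / B) i := by
  rw [add_comm, ← dig_div, pow_one]

/-- All digits lie in `L`. -/
def Z0 (B : ℕ) (L : ℕ → Prop) (Y : ℕ) : Prop := ∀ i, L (dig B Y i)

/-- An initial part in `U`, then a digit in `E`, then digits in `L`. -/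
def Nx (B : ℕ) (U E L : ℕ → Prop) (Y : ℕ) : Prop :=
  ∃ p, U (Y / B ^ (p + 1)) ∧ E (dig B Y p) ∧ ∀ i < p, L (dig B Y i)

/-- A state of a chain automaton with loop digits `L`. -/
def Ch (B : ℕ) (U L : ℕ → Prop) : Prop :=
  Good U ∧ ∀ Y p, U Y → U (Y / B ^ (p + 1)) → L (dig B Y p)

theorem ch_zero {w : ℕ} (hw : 1 ≤ w) {L : ℕ → Prop} (h : L 0) : Ch (3 ^ w) (Z0 (3 ^ w) L) L := by
  refine ⟨?_, fun Y p g _ => g p⟩
  have z : Z0 (3 ^ w) L 0 := fun i => by simpa [dig] using h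
  have r : ∀ m, Z0 (3 ^ w) L m ↔ L (m % 3 ^ w) ∧ Z0 (3 ^ w) L (m / 3 ^ w) := fun m =>
    ⟨fun g => ⟨dig_zero _ m ▸ g 0, fun i => dig_succ _ m i ▸ g (i + 1)⟩, fun g i => by
      rcases i with _ | i
      · rw [dig_zero]; exact g.1
      · rw [dig_succ]; exact g.2 i⟩
  have g : Good fun m => m ≠ 0 ∧ Z0 (3 ^ w) L m := by
    refine Good.step (L := L) (E := fun d => d ≠ 0 ∧ L d) hw Good.zero (by simp) (fun m => ?_)
      fun m g => g.1.2.1 g.2.2
    have := Nat.mod_add_div m (3 ^ w)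
    rw [r m]
    by_cases e : m / 3 ^ w = 0
    · rw [e, mul_zero, add_zero] at this
      simp [e, this, z]
    · have : m ≠ 0 := by rintro rfl; simp at e
      simp [e, this]
  refine (Good.zero.or g fun m g => g.2.1 g.1).congr fun m => ?_
  by_cases e : m = 0 <;> simp [e, z]

theorem Ch.next {w : ℕ} (hw : 1 ≤ w) {U L E : ℕ → Prop} (h : Ch (3 ^ w) U L)
    (hd : ∀ d, L d → ¬E d) (L' : ℕ → Prop) : Ch (3 ^ w) (Nx (3 ^ w) U E L') L' := by
  obtain ⟨h1, h2⟩ := h
  have dis : ∀ m, ¬(Nx (3 ^ w) U E L' m ∧ U m) := fun m ⟨⟨p, p1, p2, _⟩, g⟩ =>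
    hd _ (h2 m p g p1) p2
  refine ⟨Good.step (L := L') (E := E) hw h1 ?_ (fun m => ?_) fun m g => dis _ ⟨g.1.2, g.2.2⟩, ?_⟩
  · rintro ⟨p, p1, p2, p3⟩
    exact dis 0 ⟨⟨p, p1, p2, p3⟩, by simpa using p1⟩
  · generalize 3 ^ w = B
    constructor
    · rintro ⟨_ | p, p1, p2, p3⟩
      · exact .inr ⟨dig_zero B m ▸ p2, by simpa using p1⟩
      · refine .inl ⟨dig_zero B m ▸ p3 0 (by omega), p, ?_, dig_succ B m p ▸ p2,
          fun i hi => dig_succ B m i ▸ p3 (i + 1) (by omega)⟩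
        rwa [Nat.div_div_eq_div_mul, ← pow_succ']
    · rintro (⟨g, p, p1, p2, p3⟩ | ⟨g1, g2⟩)
      · refine ⟨p + 1, by rwa [Nat.div_div_eq_div_mul, ← pow_succ'] at p1,
          by rwa [dig_succ], fun i hi => ?_⟩
        rcases i with _ | i
        · rwa [dig_zero]
        · rw [dig_succ]; exact p3 i (by omega)
      · exact ⟨0, by simpa using g2, by rwa [dig_zero], fun i hi => absurd hi (by omega)⟩
  · rintro Y p ⟨a, a1, a2, a3⟩ ⟨b, b1, b2, -⟩
    rw [dig_div] at b2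
    rw [Nat.div_div_eq_div_mul, ← pow_add, ← add_assoc] at b1
    have key : ∀ x y, x < y → U (Y / (3 ^ w) ^ (x + 1)) → U (Y / (3 ^ w) ^ (y + 1)) →
        ¬E (dig (3 ^ w) Y y) := fun x y hxy g1 g2 => by
      obtain ⟨c, rfl⟩ := Nat.exists_eq_add_of_lt hxy
      have := h2 _ c g1 (by rwa [Nat.div_div_eq_div_mul, ← pow_add,
        show x + 1 + (c + 1) = x + c + 1 + 1 by omega])
      rw [dig_div, show x + 1 + c = x + c + 1 by omega] at this
      exact hd _ this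
    rcases lt_trichotomy a (p + 1 + b) with g | g | g
    · exact absurd b2 (key _ _ g a1 b1)
    · exact a3 p (by omega)
    · exact absurd a2 (key _ _ g b1 a1)

/-- Two tracks in one series. -/
theorem Good.two {S T : ℕ → Prop} (hS : Good S) (hT : Good T) :
    Good fun m => m % 9 = 1 ∧ S (m / 9) ∨ m % 9 = 3 ∧ T (m / 9) :=
  (Good.step (w := 2) (L := fun _ => False) (E := (· = 1)) (by omega) hS (by simp) (by simp)
    (by simp)).or (Good.step (w := 2) (L := fun _ => False) (E := (· = 3)) (by omega) hT (by simp)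
      (by simp) (by simp)) fun m h => by omega

end Pool.Agent.MP_fed7c7_lc.H93
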