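import Mathlib
import Pool.Agent.MP_fed7c7_lc.H93.Good
import Pool.Agent.MP_fed7c7_lc.H93.Defs

set_option autoImplicit false

/-!
The two tracks.
-/

namespace Pool.Agent.MP_fed7c7_lc.H93

open Finset

/-- The digit which shows a window. -/
def wv (l x y z w : ℕ) : ℕ := 2 * (l ^ 2 * x + l ^ 3 * y + z + l * w)

/-- Digits of allowed windows. -/
def P1 (l : ℕ) (W : ℕ → ℕ → ℕ → ℕ → Prop) (d : ℕ) : Prop :=
  ∃ x < l, ∃ y < l, ∃ z < l, ∃ w < l, d = wv l x y z w ∧ (x = 0 ∨ z ≠ 0 ∧ W x y z w)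

/-- Digits of the first window. -/
def P2 (l d : ℕ) : Prop :=
  ∃ x < l, ∃ y < l, ∃ w < l, d = wv l x y 0 w ∧ x ≠ 0

/-- The first track: `l`, zeros, `1`, zeros, `1`, cells (from the top). -/
def S1 (B r : ℕ) : ℕ → Prop :=
  Nx B (Nx B (Nx B (Z0 B (· = 0)) (· = 2 * r + 2) (· = 0)) (· = 1) (· = 0)) (· = 1)
    fun d => ∃ g < r, d = 2 * g + 2

/-- The second track: even digits, an odd digit, any digit, allowed windows, the first window,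
any digits (from the top). -/
def S2 (B r : ℕ) (W : ℕ → ℕ → ℕ → ℕ → Prop) : ℕ → Prop :=
  Nx B (Nx B (Nx B (Z0 B Even) Odd fun _ => False) (fun _ => True) (P1 (2 * r + 2) W))
    (P2 (2 * r + 2)) fun _ => True

/-- The input word. -/
def inw (B f c e a : ℕ) : ℕ :=
  2 * f + 2 + ∑ i ∈ range a, (2 * c + 2) * B ^ (i + 1) + (2 * e + 2) * B ^ (a + 1)

/-- The number with the word `lt N G` and the two markers. -/
def num (B r k N m : ℕ) (G : ℕ → ℕ) : ℕ :=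
  ∑ i ∈ range (N + 1), lt N G i * B ^ i + B ^ m + (2 * r + 2) * B ^ (m + k)

/-- The digits of `((2r+2)^2 + B) * num ^ 2` at the positions `≥ 2 N + 1`. -/
def top (r k N m : ℕ) (G : ℕ → ℕ) (j : ℕ) : ℕ :=
  sh m (fun i => wv (2 * r + 2) (lt N G i) (sh k (lt N G) i) (sh 1 (lt N G) i)
      (sh (k + 1) (lt N G) i)) j +
    (if j = 2 * N + 1 then 1 else 0) + (if j = 2 * m + 1 then 1 else 0) +
    (if j = 2 * m then (2 * r + 2) ^ 2 else 0) + (if j = 2 * m + k then 2 * (2 * r + 2) ^ 3 else 0) +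
    (if j = 2 * m + k + 1 then 2 * (2 * r + 2) else 0) +
    (if j = 2 * m + 2 * k then (2 * r + 2) ^ 4 else 0) +
    (if j = 2 * m + 2 * k + 1 then (2 * r + 2) ^ 2 else 0)

/-- ROW TAB. -/
def StmtTAB : Prop := ∃ (U : ℕ → Prop) (r f c e : ℕ) (W : ℕ → ℕ → ℕ → ℕ → Prop),
  ¬ComputablePred U ∧ f < r ∧ c < r ∧ e < r ∧ ∀ a, U a ↔ Tab r f c e W a

/-- ROW DIG. -/
def StmtDIG : Prop := ∀ (B r k N m : ℕ) (G : ℕ → ℕ), 100 * (2 * r + 2) ^ 4 ≤ B → 1 ≤ N →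
  (∀ i < N, G i < r) → ∀ j, 2 * N + 1 ≤ j →
    dig B (((2 * r + 2) ^ 2 + B) * num B r k N m G ^ 2) j = top r k N m G j

/-- ROW ONE. -/
def StmtONE : Prop := ∀ (B r f c e a x : ℕ), 100 * (2 * r + 2) ^ 4 ≤ B → f < r → c < r → e < r →
  ((∃ n, S1 B r n ∧ x = B ^ (a + 2) * n + inw B f c e a) ↔ ∃ (k N m : ℕ) (G : ℕ → ℕ), 1 ≤ k ∧
    a + 2 ≤ N ∧ N < m ∧ G 0 = f ∧ (∀ i, 1 ≤ i → i ≤ a → G i = c) ∧ G (a + 1) = e ∧
      (∀ i < N, G i < r) ∧ x = num B r k N m G)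

/-- ROW TWO. -/
def StmtTWO : Prop := ∀ (B r k N m Y : ℕ) (G : ℕ → ℕ) (W : ℕ → ℕ → ℕ → ℕ → Prop), 2 ≤ B → 1 ≤ k →
  1 ≤ N → N < m → (∀ i < N, G i < r) → (∀ j, 2 * N + 1 ≤ j → dig B Y j = top r k N m G j) →
    (S2 B r W Y → ∀ i, 1 ≤ i → i ≤ N →
      W (lt N G i) (sh k (lt N G) i) (sh 1 (lt N G) i) (sh (k + 1) (lt N G) i)) ∧
    (2 * N + 1 < m → (∀ i, 1 ≤ i → i ≤ N →
      W (lt N G i) (sh k (lt N G) i) (sh 1 (lt N G) i) (sh (k + 1) (lt N G) i)) → S2 B r W Y)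

end Pool.Agent.MP_fed7c7_lc.H93
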