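import Mathlib
import Pool.Agent.MP_fed7c7_lc.H56.Comb

set_option autoImplicit false

/-!
Two squares, one divisibility and one inequality as one equation.
-/

namespace Pool.Agent.MP_fed7c7_lc.H93

open Finset Pool.Agent.MP_fed7c7_lc.H56

/-- Two squares, one divisibility and one inequality as one equation in a nonnegative unknown. -/
def cb (P Q S T R z : ℤ) : ℤ :=
  cmb (S ^ 2 * z + T ^ 2 - S ^ 2 * (2 * R - 1) * (T ^ 2 + (1 + P + (1 + P ^ 2) * Q)))
    (S ^ 2 * (2 * R - 1)) P Q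

theorem cb_sound {P Q S T R z : ℤ} (hS : S ≠ 0) (hz : 0 ≤ z) (h : cb P Q S T R z = 0) :
    IsSquare P ∧ IsSquare Q ∧ S ∣ T ∧ 0 < R := by
  unfold cb at h
  set m := S ^ 2 * (2 * R - 1) with hm
  set r := S ^ 2 * z + T ^ 2 - m * (T ^ 2 + (1 + P + (1 + P ^ 2) * Q)) with hr
  have S2 := sq_pos_of_ne_zero hS
  obtain ⟨h1, h2⟩ := cmb_sound h
  obtain ⟨⟨s, rfl⟩, t, rfl⟩ := h2 (mul_ne_zero S2.ne' (by omega))
  have d : S ^ 2 ∣ m := dvd_mul_right _ _
  refine ⟨⟨s, rfl⟩, ⟨t, rfl⟩, (Int.pow_dvd_pow_iff two_ne_zero).1 (dv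
    (((d.trans h1).add (d.mul_right (T ^ 2 + (1 + s * s + (1 + (s * s) ^ 2) * (t * t))))).sub
      (dvd_mul_right _ z)) (by rw [hr]; ring)), ?_⟩
  by_contra g
  have m0 : 0 < -m := by rw [hm]; nlinarith
  set c := 1 + (s * s) ^ 2 with hc
  have c0 : 0 < c := by positivity
  have ab : ∀ s : ℤ, |s| ≤ s * s := fun s => by
    rw [← abs_mul_abs_self, ← sq]; exact Int.le_self_sq _
  have s1 := ab s
  have t1 := ab t
  have r1 : -m * (1 + s * s + c * (t * t)) ≤ r := by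
    have := mul_nonneg S2.le hz
    have := mul_nonneg m0.le (sq_nonneg T)
    rw [hr]; nlinarith [sq_nonneg T]
  have key : ∀ s' t' : ℤ, |s'| ≤ s * s → |t'| ≤ t * t → 0 < r + m * s' + m * c * t' := by
    intro s' t' u1 u2
    have v1 := mul_le_mul_of_nonneg_left (le_abs_self s' |>.trans u1) m0.le
    have v2 := mul_le_mul_of_nonneg_left (le_abs_self t' |>.trans u2) (mul_pos m0 c0).le
    nlinarith
  have e : (r + m * s + m * c * t) * (r + m * s + m * c * -t) *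
      ((r + m * -s + m * c * t) * (r + m * -s + m * c * -t)) = 0 := by
    unfold cmb at h
    linear_combination h
  have s2 : |-s| ≤ s * s := by rwa [abs_neg]
  have t2 : |-t| ≤ t * t := by rwa [abs_neg]
  exact (mul_pos (mul_pos (key _ _ s1 t1) (key _ _ s1 t2))
    (mul_pos (key _ _ s2 t1) (key _ _ s2 t2))).ne' e

theorem cb_complete {P Q S T R : ℤ} (hP : IsSquare P) (hQ : IsSquare Q) (hS : S ∣ T)
    (hR : 0 < R) : ∃ z, 0 ≤ z ∧ cb P Q S T R z = 0 := by
  obtain ⟨s, rfl⟩ := hP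
  obtain ⟨t, rfl⟩ := hQ
  obtain ⟨q, rfl⟩ := hS
  rcases eq_or_ne S 0 with rfl | S0
  · exact ⟨0, le_rfl, by simp [cb, cmb]⟩
  rw [← abs_mul_abs_self s, ← abs_mul_abs_self t]
  generalize hs : |s| = s'
  generalize ht : |t| = t'
  have s0 : 0 ≤ s' := hs ▸ abs_nonneg s
  have t0 : 0 ≤ t' := ht ▸ abs_nonneg t
  refine ⟨(2 * R - 1) * ((S * q) ^ 2 + (1 + s' * s' + (1 + (s' * s') ^ 2) * (t' * t')) +
    (s' + (1 + (s' * s') ^ 2) * t')) - q ^ 2, ?_, ?_⟩
  · have h1 : q ^ 2 ≤ (S * q) ^ 2 := by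
      rw [mul_pow]; exact le_mul_of_one_le_left (sq_nonneg q) (sq_pos_of_ne_zero S0)
    have h2 : 0 ≤ (1 + s' * s' + (1 + (s' * s') ^ 2) * (t' * t')) +
      (s' + (1 + (s' * s') ^ 2) * t') := by positivity
    have h3 := le_mul_of_one_le_left (add_nonneg (sq_nonneg (S * q)) h2)
      (show 1 ≤ 2 * R - 1 by omega)
    linarith
  · unfold cb
    rw [← cmb_complete (S ^ 2 * (2 * R - 1)) s' t']
    congr 1
    ring

/-- The same with three integer unknowns. -/
def cz (P Q S T R u t z : ℤ) : ℤ :=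
  cmb (S ^ 5 * (P * u) * z - nz S T t) (S ^ 5 * (P * u)) (P * jJ R P u) Q

theorem cz_sound {P Q S T R u t z : ℤ} (hS : S ≠ 0) (h : cz P Q S T R u t z = 0) :
    IsSquare P ∧ IsSquare Q ∧ S ∣ T ∧ 0 < R := by
  obtain ⟨h1, h2⟩ := cmb_sound h
  have h3 : S ^ 5 * (P * u) ∣ nz S T t := dv ((dvd_mul_right _ z).sub h1) (by ring)
  obtain ⟨q, rfl⟩ := dvd_of_nz ((dvd_mul_right _ _).trans h3) hS
  have hE0 : P * u ≠ 0 := by
    intro g
    rw [g, mul_zero, zero_dvd_iff, nz_mul] at h3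
    exact mul_ne_zero (pow_ne_zero 5 hS) (nz_ne q t) h3
  obtain ⟨⟨s, hs⟩, hQ⟩ := h2 (mul_ne_zero (pow_ne_zero 5 hS) hE0)
  set J := jJ R P u with hJ
  have co : IsCoprime P J := cop ⟨(4 * R - 2) * 4 * P * u ^ 2, by rw [hJ, jJ]; ring⟩
  have e : J = 4 * ((4 * R - 2) * (P * u) ^ 2) + 1 := by rw [hJ, jJ]; ring
  obtain ⟨c, hc | hc⟩ := Int.sq_of_isCoprime co.symm (c := s) (by linear_combination hs)
  · refine ⟨isSquare_of_mul (b := c) (c := s) (by rintro rfl; omega)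
      (by rw [← hc]; linear_combination hs), hQ, dvd_mul_right _ _, ?_⟩
    by_contra g
    have := sq_pos_of_ne_zero hE0
    nlinarith [sq_nonneg c]
  · rcases Int.even_or_odd' c with ⟨k, rfl | rfl⟩
    · have : J = 4 * (-k ^ 2) := by rw [hc]; ring
      omega
    · have : J = 4 * (-k ^ 2 - k - 1) + 3 := by rw [hc]; ring
      omega

theorem cz_complete {P Q S T R : ℤ} (P0 : P ≠ 0) (hP : IsSquare P) (hQ : IsSquare Q) (hS : S ∣ T)
    (hR : 0 < R) : ∃ u t z, cz P Q S T R u t z = 0 := by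
  obtain ⟨q, rfl⟩ := hS
  obtain ⟨b, rfl⟩ := hQ
  obtain ⟨u, j, hu, hj⟩ := exists_pell (d := 4 * R - 2) (N := 2 * P) (by linarith) (by
    rintro ⟨c, hc⟩
    rcases Int.even_or_odd' c with ⟨k, rfl | rfl⟩
    · have : 4 * R - 2 = 4 * k ^ 2 := by rw [hc]; ring
      omega
    · have : 4 * R - 2 = 4 * (k ^ 2 + k) + 1 := by rw [hc]; ring
      omega) (by positivity)
  obtain ⟨t, r, hr⟩ := exists_nz q (P * u) (mul_ne_zero P0 hu)
  obtain ⟨a, ha⟩ := hP
  have eP : P * jJ R P u = a * j * (a * j) := by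
    rw [show jJ R P u = j ^ 2 from hj.symm, ha]; ring
  refine ⟨u, t, r + (a * j + (1 + (a * j * (a * j)) ^ 2) * b), ?_⟩
  unfold cz
  rw [eP, nz_mul, hr, ← cmb_complete (S ^ 5 * (P * u)) (a * j) b]
  congr 1
  ring

section
variable {σ : Type} {P Q S T R u t z : (σ → ℤ) → ℤ}

theorem pf_cb (_ : PF P) (_ : PF Q) (_ : PF S) (_ : PF T) (_ : PF R) (_ : PF z) : PF fun w =>
    cb (P w) (Q w) (S w) (T w) (R w) (z w) := by
  unfold cb; fun_prop

theorem pf_cz (_ : PF P) (_ : PF Q) (_ : PF S) (_ : PF T) (_ : PF R) (_ : PF u) (_ : PF t)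
    (_ : PF z) : PF fun w => cz (P w) (Q w) (S w) (T w) (R w) (u w) (t w) (z w) := by
  unfold cz nz jJ; fun_prop

@[fun_prop]
theorem pf_eval (p : MvPolynomial (Fin 3) ℤ) (hP : PF P) (hQ : PF Q) (hS : PF S) :
    PF fun w => MvPolynomial.eval ![P w, Q w, S w] p := by
  induction p using MvPolynomial.induction_on with
  | C c => simpa using PF.const c
  | add p q h1 h2 => simpa using h1.add h2
  | mul_X p i h =>
    simp only [map_mul, MvPolynomial.eval_X]
    refine h.mul ?_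
    fin_cases i
    exacts [hP, hQ, hS]

end

/-- Substituting two primitive recursive parameters. -/
theorem exists_code' {n : ℕ} {F : ℤ → ℤ → (Fin n → ℤ) → ℤ}
    (h : PF fun v : Fin (n + 2) → ℤ => F (v 0) (v 1) fun i => v i.succ.succ) {u w : ℕ → ℕ}
    (hu : Primrec u) (hw : Primrec w) :
    ∃ c : ℕ → List (ℤ × (Fin n → ℕ)), Primrec c ∧ ∀ (a : ℕ) x, F (u a) (w a) x = ev (c a) x := by
  obtain ⟨l, hl⟩ := h.code
  refine ⟨fun a => l.map fun t => (t.1 * (u a ^ t.2 0 * w a ^ t.2 1 : ℕ), fun i => t.2 i.succ.succ),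
    ?_, fun a x => ?_⟩
  · clear hl
    induction l with
    | nil => exact Primrec.const _
    | cons t l ih =>
      exact Primrec.list_cons.comp ((primrec_mul_cast t.1 (Primrec.nat_mul.comp
        (primrec_pow.comp hu (Primrec.const _)) (primrec_pow.comp hw (Primrec.const _)))).pair
            (Primrec.const _)) ih
  · refine (hl (Fin.cons (u a) (Fin.cons (w a) x))).trans ?_
    rw [ev, ev, List.map_map]
    congr 1
    refine List.map_congr_left fun t _ => ?_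
    simp [Fin.prod_univ_succ, mul_assoc]

end Pool.Agent.MP_fed7c7_lc.H93
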