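import Mathlib
import Pool.Agent.MP_fed7c7_lc.H93.Good

set_option autoImplicit false

/-!
Real values of integer power series and polynomials in two variables.
-/

namespace Pool.Agent.MP_fed7c7_lc.H93

open PowerSeries Finset

/-- The real value of a series. -/
noncomputable def evs (f : ℤ⟦X⟧) (t : ℝ) : ℝ := ∑' m, ((coeff m f : ℤ) : ℝ) * t ^ m

/-- The series converges absolutely with value `x`. -/
def Ev (t : ℝ) (f : ℤ⟦X⟧) (x : ℝ) : Prop :=
  (Summable fun m => ‖((coeff m f : ℤ) : ℝ) * t ^ m‖) ∧ evs f t = x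

theorem Ev.add {t x y : ℝ} {f g : ℤ⟦X⟧} (hf : Ev t f x) (hg : Ev t g y) : Ev t (f + g) (x + y) := by
  refine ⟨(hf.1.add hg.1).of_nonneg_of_le (fun _ => norm_nonneg _) fun m => ?_, ?_⟩
  · rw [map_add, Int.cast_add, add_mul]
    exact norm_add_le _ _
  · rw [← hf.2, ← hg.2, evs, evs, evs, ← hf.1.of_norm.tsum_add hg.1.of_norm]
    simp [add_mul]

theorem Ev.mul {t x y : ℝ} {f g : ℤ⟦X⟧} (hf : Ev t f x) (hg : Ev t g y) : Ev t (f * g) (x * y) := by
  have e : ∀ m, ((coeff m (f * g) : ℤ) : ℝ) * t ^ m = ∑ p ∈ antidiagonal m,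
      ((coeff p.1 f : ℤ) : ℝ) * t ^ p.1 * (((coeff p.2 g : ℤ) : ℝ) * t ^ p.2) := fun m => by
    rw [coeff_mul, Int.cast_sum, sum_mul]
    refine sum_congr rfl fun p hp => ?_
    rw [← mem_antidiagonal.1 hp, Int.cast_mul, pow_add]
    ring
  have h1 := summable_norm_sum_mul_antidiagonal_of_summable_norm hf.1 hg.1
  have h2 := tsum_mul_tsum_eq_tsum_sum_antidiagonal_of_summable_norm hf.1 hg.1
  refine ⟨h1.congr fun m => by rw [e], ?_⟩
  rw [← hf.2, ← hg.2, evs, evs, evs, h2]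
  exact tsum_congr e

theorem Ev.mono (t : ℝ) (n : ℕ) (c : ℤ) : Ev t (monomial n c) (c * t ^ n) := by
  have e : ∀ m, m ≠ n → ((coeff m (monomial n c) : ℤ) : ℝ) * t ^ m = 0 := fun m h => by
    simp [coeff_monomial, h]
  exact ⟨summable_of_ne_finset_zero (s := {n}) fun m h => by rw [e m (by simpa using h), norm_zero],
    by rw [evs, tsum_eq_single n e, coeff_monomial_same]⟩

theorem Ev.int (t : ℝ) (c : ℤ) : Ev t c c := by
  simpa using Ev.mono t 0 c

theorem Ev.var (t : ℝ) : Ev t X t := by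
  have := Ev.mono t 1 1
  rwa [← X_pow_eq, pow_one, Int.cast_one, one_mul, pow_one] at this

theorem Ev.pow {t x : ℝ} {f : ℤ⟦X⟧} (hf : Ev t f x) (n : ℕ) : Ev t (f ^ n) (x ^ n) := by
  induction n with
  | zero => simpa using Ev.int t 1
  | succ n ih => rw [pow_succ, pow_succ]; exact ih.mul hf

theorem tail {f : ℤ⟦X⟧} {g t : ℝ} (hg : 0 ≤ g) (ht : 0 ≤ t) (h : g * t ≤ 1 / 2)
    (ha : ∀ m, |((coeff m f : ℤ) : ℝ)| ≤ g ^ (m + 1)) : Ev t f (evs f t) ∧ ∀ k,
      |evs f t - ∑ m ∈ range k, ((coeff m f : ℤ) : ℝ) * t ^ m| ≤ 2 * g ^ (k + 1) * t ^ k := by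
  have e : ∀ m, ‖((coeff m f : ℤ) : ℝ) * t ^ m‖ = |((coeff m f : ℤ) : ℝ)| * t ^ m := fun m => by
    rw [Real.norm_eq_abs, abs_mul, abs_of_nonneg (pow_nonneg ht m)]
  have b := geo_tail hg ht h ha
  simp only [← e] at b
  have s : ∀ k, Summable fun m => ‖((coeff (m + k) f : ℤ) : ℝ) * t ^ (m + k)‖ := fun k =>
    summable_of_sum_range_le (fun _ => norm_nonneg _) (b k)
  refine ⟨⟨s 0, rfl⟩, fun k => ?_⟩
  have s0 : Summable fun m => ((coeff m f : ℤ) : ℝ) * t ^ m := (s 0).of_norm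
  rw [evs, ← s0.sum_add_tsum_nat_add k, add_sub_cancel_left]
  exact (norm_tsum_le_tsum_norm (s k)).trans ((s k).tsum_le_of_sum_range_le (b k))

theorem EB.small {f : ℤ⟦X⟧} (hf : EB f) {k : ℕ} (hk : X ^ k ∣ f) : ∃ K : ℝ, 1 ≤ K ∧
    ∀ t, 0 ≤ t → K * t ≤ 1 → Ev t f (evs f t) ∧ |evs f t| ≤ K * t ^ k := by
  obtain ⟨g, g1, hg⟩ := hf
  have g2 : g ≤ g ^ (k + 1) := le_self_pow₀ g1 (by omega)
  refine ⟨2 * g ^ (k + 1), by linarith, fun t t0 t1 => ?_⟩
  obtain ⟨h1, h2⟩ := tail (by linarith) t0 (by nlinarith) hg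
  refine ⟨h1, ?_⟩
  have := h2 k
  rwa [sum_eq_zero fun m hm => by simp [X_pow_dvd_iff.1 hk m (mem_range.1 hm)], sub_zero] at this

/-- The value of a polynomial in two variables. -/
noncomputable def e2 {R : Type} [CommRing R] (P : Polynomial (Polynomial ℤ)) (s x : R) : R :=
  P.eval₂ (Polynomial.eval₂RingHom (Int.castRingHom R) s) x

theorem e2_ind {R S : Type} [CommRing R] [CommRing S] (Q : R → S → Prop)
    (ha : ∀ a b c d, Q a b → Q c d → Q (a + c) (b + d))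
    (hm : ∀ a b c d, Q a b → Q c d → Q (a * c) (b * d)) (hc : ∀ c : ℤ, Q c c)
    {s x : R} {s' x' : S} (hs : Q s s') (hx : Q x x') (P : Polynomial (Polynomial ℤ)) :
    Q (e2 P s x) (e2 P s' x') := by
  have hp : ∀ a b (n : ℕ), Q a b → Q (a ^ n) (b ^ n) := fun a b n h => by
    induction n with
    | zero => simpa using hc 1
    | succ n ih => rw [pow_succ, pow_succ]; exact hm _ _ _ _ ih h
  unfold e2
  induction P using Polynomial.induction_on' with
  | add p q h1 h2 => rw [Polynomial.eval₂_add, Polynomial.eval₂_add]; exact ha _ _ _ _ h1 h2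
  | monomial n a =>
    rw [Polynomial.eval₂_monomial, Polynomial.eval₂_monomial]
    refine hm _ _ _ _ ?_ (hp _ _ n hx)
    induction a using Polynomial.induction_on' with
    | add p q h1 h2 => rw [map_add, map_add]; exact ha _ _ _ _ h1 h2
    | monomial n a =>
      simp only [Polynomial.coe_eval₂RingHom, Polynomial.eval₂_monomial]
      exact hm _ _ _ _ (hc a) (hp _ _ n hs)

theorem Ev.e2 {t s x : ℝ} {f g : ℤ⟦X⟧} (hf : Ev t f s) (hg : Ev t g x)
    (P : Polynomial (Polynomial ℤ)) : Ev t (e2 P f g) (e2 P s x) :=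
  e2_ind (Ev t) (fun _ _ _ _ => Ev.add) (fun _ _ _ _ => Ev.mul) (Ev.int t) hf hg P

theorem EB.e2 {f g : ℤ⟦X⟧} (hf : EB f) (hg : EB g) (P : Polynomial (Polynomial ℤ)) :
    EB (e2 P f g) :=
  e2_ind (fun f (_ : ℤ) => EB f) (fun _ _ _ _ => EB.add) (fun _ _ _ _ => EB.mul)
    (fun c => by simpa using EB.const c) (s' := 0) (x' := 0) hf hg P

theorem sep {g : ℤ⟦X⟧} (h : IsAlgebraic RS g) : ∃ P : Polynomial (Polynomial ℤ),
    e2 P ss g = 0 ∧ e2 (Polynomial.derivative P) ss g ≠ 0 := by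
  have : CharZero ℤ⟦X⟧ := (C : ℤ →+* ℤ⟦X⟧).charZero_iff C_injective |>.1 inferInstance
  obtain ⟨p, p0, hp⟩ := h
  set φ := Polynomial.eval₂RingHom (Int.castRingHom ℤ⟦X⟧) ss with hφ
  obtain ⟨P, hP⟩ : p.map (algebraMap RS ℤ⟦X⟧) ∈ Polynomial.lifts φ := by
    refine (Polynomial.lifts_iff_coeff_lifts _).2 fun n => ?_
    rw [Polynomial.coeff_map]
    have : ((p.coeff n : RS) : ℤ⟦X⟧) ∈ (Polynomial.aeval ss).range :=
      (Algebra.adjoin_singleton_eq_range_aeval ℤ ss).le (p.coeff n).2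
    obtain ⟨q, hq⟩ := this
    refine ⟨q, Eq.trans ?_ hq⟩
    rw [hφ, Polynomial.coe_eval₂RingHom, AlgHom.toRingHom_eq_coe, AlgHom.coe_toRingHom,
      Polynomial.aeval_def]
    congr 1
    exact Subsingleton.elim _ _
  have h1 : P.map φ ≠ 0 := by
    rw [show P.map φ = _ from hP]
    exact (Polynomial.map_ne_zero_iff Subtype.val_injective).2 p0
  have h2 : (P.map φ).eval g = 0 := by
    rw [show P.map φ = _ from hP, Polynomial.eval_map_algebraMap, hp]
  simp only [e2, ← hφ, ← Polynomial.eval_map]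
  clear hP
  induction hn : (P.map φ).natDegree using Nat.strong_induction_on generalizing P with
  | _ n ih =>
    by_cases g1 : ((Polynomial.derivative P).map φ).eval g = 0
    · have g2 : (P.map φ).natDegree ≠ 0 := fun z => by
        rw [Polynomial.eq_C_of_natDegree_eq_zero z] at h1 h2
        rw [Polynomial.eval_C] at h2
        exact h1 (by rw [h2, map_zero])
      refine ih _ ?_ (Polynomial.derivative P) ?_ g1 rfl
      · rw [← hn, ← Polynomial.derivative_map]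
        exact Polynomial.natDegree_derivative_lt g2
      · rw [← Polynomial.derivative_map]
        exact fun z => g2 (Polynomial.derivative_eq_zero.1 z)
    · exact ⟨P, h2, g1⟩

theorem approx (g : ℤ⟦X⟧) (N : ℕ) : ∃ T : Polynomial ℤ,
    X ^ N ∣ e2 (Polynomial.X - Polynomial.C T) ss g := by
  simp only [e2, Polynomial.eval₂_sub, Polynomial.eval₂_X, Polynomial.eval₂_C]
  induction N with
  | zero => exact ⟨0, by simp⟩
  | succ N ih =>
    obtain ⟨T, w, hw⟩ := ih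
    refine ⟨T + Polynomial.monomial N (constantCoeff w), ?_⟩
    have e : ss = X * (1 - X * ss) := by linear_combination ss_mul
    obtain ⟨a, ha⟩ : X ∣ w - C (constantCoeff w) := X_dvd_iff.2 (by simp)
    obtain ⟨b, hb⟩ : X ∣ (1 - X * ss) ^ N - 1 ^ N :=
      Dvd.dvd.trans ⟨-ss, by ring⟩ (sub_dvd_pow_sub_pow _ _ N)
    refine ⟨a - C (constantCoeff w) * b, ?_⟩
    rw [map_add, Polynomial.coe_eval₂RingHom, Polynomial.eval₂_monomial]
    rw [Polynomial.coe_eval₂RingHom] at hw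
    have e1 : ss ^ N = X ^ N * (1 - X * ss) ^ N := by rw [← mul_pow, ← e]
    rw [e1, show (Int.castRingHom ℤ⟦X⟧) (constantCoeff w) = C (constantCoeff w) by simp]
    rw [one_pow] at hb
    linear_combination hw + X ^ N * ha - C (constantCoeff w) * X ^ N * hb

theorem taylor (P : Polynomial (Polynomial ℤ)) (M : ℝ) : ∃ K : ℝ, 1 ≤ K ∧ ∀ s x y : ℝ,
    |s| ≤ M → |x| ≤ M → |y| ≤ M →
      |e2 P s (x + y) - e2 P s x - e2 (Polynomial.derivative P) s x * y| ≤ K * y ^ 2 := by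
  let a : C(ℝ × ℝ × ℝ, ℝ) := ⟨fun p => p.1, by fun_prop⟩
  let b : C(ℝ × ℝ × ℝ, ℝ) := ⟨fun p => p.2.1, by fun_prop⟩
  let c : C(ℝ × ℝ × ℝ, ℝ) := ⟨fun p => p.2.2, by fun_prop⟩
  obtain ⟨k, hk⟩ := (P.map (Polynomial.eval₂RingHom (Int.castRingHom _) a)).binomExpansion b c
  rw [Polynomial.derivative_map, Polynomial.eval_map, Polynomial.eval_map,
    Polynomial.eval_map] at hk
  obtain ⟨K, hK⟩ := (isCompact_closedBall (0 : ℝ × ℝ × ℝ) M).exists_bound_of_continuousOn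
    k.continuous.continuousOn
  refine ⟨max K 1, le_max_right _ _, fun s x y hs hx hy => ?_⟩
  have e : ∀ (P : Polynomial (Polynomial ℤ)) (u : C(ℝ × ℝ × ℝ, ℝ)),
      e2 P a u (s, x, y) = e2 P s (u (s, x, y)) := fun P u =>
    e2_ind (fun (F : C(ℝ × ℝ × ℝ, ℝ)) (z : ℝ) => F (s, x, y) = z)
      (by rintro _ _ _ _ rfl rfl; rfl) (by rintro _ _ _ _ rfl rfl; rfl) (by simp) rfl rfl P
  have h := congrArg (fun F : C(ℝ × ℝ × ℝ, ℝ) => F (s, x, y)) hk
  change e2 P a (b + c) (s, x, y) = e2 P a b (s, x, y) +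
    e2 (Polynomial.derivative P) a b (s, x, y) * y + k (s, x, y) * y ^ 2 at h
  rw [e, e, e] at h
  change e2 P s (x + y) = e2 P s x + e2 (Polynomial.derivative P) s x * y + _ at h
  have h1 := hK (s, x, y) (by
    rw [mem_closedBall_zero_iff, Prod.norm_def, Prod.norm_def]
    exact max_le hs (max_le hx hy))
  rw [h, show ∀ p q r : ℝ, p + q + r - p - q = r from fun _ _ _ => by ring, abs_mul,
    abs_of_nonneg (sq_nonneg y)]
  exact mul_le_mul_of_nonneg_right (h1.trans (le_max_left _ _)) (sq_nonneg y)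

end Pool.Agent.MP_fed7c7_lc.H93
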