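import Mathlib
import Pool.Agent.MP_fed7c7_lc.H93.Eval

set_option autoImplicit false

/-!
Rounding a multiple of the value of a nice series is one polynomial inequality.
-/

namespace Pool.Agent.MP_fed7c7_lc.H93

open PowerSeries Finset

/-- Rational functions with denominators powers of `a * c`. -/
def RF (F : ℝ → ℝ → ℝ → ℝ) : Prop := ∃ (d : ℕ) (p : MvPolynomial (Fin 3) ℤ), ∀ a c l : ℤ,
  a ≠ 0 → c ≠ 0 → ((MvPolynomial.eval ![a, c, l] p : ℤ) : ℝ) = (a * c) ^ d * F a c l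

theorem RF.add {F G : ℝ → ℝ → ℝ → ℝ} (hF : RF F) (hG : RF G) : RF (F + G) := by
  obtain ⟨d, p, h⟩ := hF
  obtain ⟨e, q, g⟩ := hG
  refine ⟨d + e, p * (.X 0 * .X 1) ^ e + q * (.X 0 * .X 1) ^ d, fun a c l ha hc => ?_⟩
  simp [h a c l ha hc, g a c l ha hc]
  ring

theorem RF.mul {F G : ℝ → ℝ → ℝ → ℝ} (hF : RF F) (hG : RF G) : RF (F * G) := by
  obtain ⟨d, p, h⟩ := hF
  obtain ⟨e, q, g⟩ := hG
  refine ⟨d + e, p * q, fun a c l ha hc => ?_⟩
  simp [h a c l ha hc, g a c l ha hc]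
  ring

theorem RF.int (k : ℤ) : RF k := ⟨0, .C k, fun a c l _ _ => by simp⟩

theorem RF.pow {F : ℝ → ℝ → ℝ → ℝ} (hF : RF F) (n : ℕ) : RF (F ^ n) := by
  induction n with
  | zero => simpa using RF.int 1
  | succ n ih => rw [pow_succ]; exact ih.mul hF

theorem RF.a : RF fun a _ _ => a := ⟨0, .X 0, fun a c l _ _ => by simp⟩

theorem RF.c : RF fun _ c _ => c := ⟨0, .X 1, fun a c l _ _ => by simp⟩

theorem RF.e2 (P : Polynomial (Polynomial ℤ)) : RF fun a c l => e2 P (1 / a) (l / c) := by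
  have h := e2_ind (fun F (_ : ℤ) => RF F) (fun _ _ _ _ => RF.add) (fun _ _ _ _ => RF.mul) RF.int
    (s := fun a _ _ => 1 / a) (x := fun _ c l => l / c) (s' := 0) (x' := 0)
    ⟨1, .X 1, fun a c l ha _ => by
      have : (a : ℝ) ≠ 0 := by exact_mod_cast ha
      simp; field_simp⟩
    ⟨1, .X 0 * .X 2, fun a c l _ hc => by
      have : (c : ℝ) ≠ 0 := by exact_mod_cast hc
      simp; field_simp⟩ P
  convert h using 1
  funext a c l
  exact (e2_ind (fun (F : ℝ → ℝ → ℝ → ℝ) (z : ℝ) => F a c l = z)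
    (by rintro _ _ _ _ rfl rfl; rfl) (by rintro _ _ _ _ rfl rfl; rfl) (by simp)
    (s := fun a _ _ => 1 / a) (x := fun _ c l => l / c) rfl rfl P).symm

theorem core_sound {a t y c p p' q K u α τ : ℝ} (t0 : 0 < t) (τ0 : 0 < τ) (τ1 : τ ≤ 1)
    (K1 : 1 ≤ K) (hK : K * t ≤ 1 / 8) (h1 : 1 ≤ a * t) (h2 : 1 ≤ α * τ) (hu : 1 ≤ |u|)
    (hq : |q| ≤ K * (τ * t ^ 2)) (hp' : |p' - u * τ| ≤ K * (τ * t))
    (hp : |y| ≤ 1 → |p - p' * y| ≤ K * y ^ 2)
    (h : 0 < 1 - ((q + y) * (α * a)) ^ 2 - (4 * p * c * α) ^ 2) : |y * c| < 1 / 2 := by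
  have t1 : t ≤ 1 / 8 := by nlinarith
  have α0 : 0 < α := by by_contra g; nlinarith
  have a0 : 0 < a := by by_contra g; nlinarith
  have τt : 0 < τ * t := by positivity
  have g1 : |(q + y) * (α * a)| < 1 :=
    (sq_lt_one_iff_abs_lt_one _).1 (by nlinarith [sq_nonneg (4 * p * c * α)])
  have g2 : |4 * p * c * α| < 1 :=
    (sq_lt_one_iff_abs_lt_one _).1 (by nlinarith [sq_nonneg ((q + y) * (α * a))])
  rw [abs_mul, abs_of_pos (mul_pos α0 a0)] at g1
  have g3 : |q + y| ≤ τ * t := by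
    have : 1 ≤ α * τ * (a * t) := one_le_mul_of_one_le_of_one_le h2 h1
    nlinarith [abs_nonneg (q + y), mul_le_mul_of_nonneg_left this (abs_nonneg (q + y))]
  have g4 : |y| ≤ 2 * (τ * t) := by
    have := abs_sub (q + y) q
    rw [add_sub_cancel_left] at this
    nlinarith
  have g5 := hp (by nlinarith)
  have g6 : τ - K * (τ * t) ≤ |p'| := by
    have := abs_sub_abs_le_abs_sub (u * τ) p'
    rw [abs_sub_comm, abs_mul, abs_of_pos τ0] at this
    nlinarith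
  have g7 : |y| * τ / 2 ≤ |p| := by
    have := abs_sub_abs_le_abs_sub (p' * y) p
    rw [abs_sub_comm, abs_mul] at this
    rw [← sq_abs] at g5
    have y0 := abs_nonneg y
    have e1 := mul_le_mul_of_nonneg_right g6 y0
    have e2 := mul_le_mul_of_nonneg_right (mul_le_mul_of_nonneg_left g4 (by linarith : 0 ≤ K)) y0
    have e3 := mul_le_mul_of_nonneg_right hK (mul_nonneg τ0.le y0)
    nlinarith
  rw [abs_mul, abs_mul, abs_mul, abs_of_pos α0, abs_of_pos (by norm_num : (0 : ℝ) < 4)] at g2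
  rw [abs_mul]
  have e1 := mul_le_mul_of_nonneg_right g7 (mul_nonneg (abs_nonneg c) α0.le)
  have e2 := mul_le_mul_of_nonneg_left h2 (mul_nonneg (abs_nonneg y) (abs_nonneg c))
  nlinarith

theorem core_complete {a t y c p p' q K u α τ β : ℝ} (t0 : 0 < t) (τ0 : 0 < τ) (τ1 : τ ≤ 1)
    (K1 : 1 ≤ K) (β1 : 1 ≤ β) (hK : K * β * t ≤ 1 / 8) (h1 : 1 ≤ a * t) (h2 : 1 ≤ α * τ)
    (h3 : a * t ≤ 2) (h4 : α * τ ≤ β)
    (hq : |q| ≤ K * (τ * t ^ 2)) (hp' : |p' - u * τ| ≤ K * (τ * t))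
    (hp : |y| ≤ 1 → |p - p' * y| ≤ K * y ^ 2) (hy : |y * c| * (8 * (|u| + 1) * β) ≤ 1)
    (hc : α * a ≤ |c|) : 1 / 2 ≤ 1 - ((q + y) * (α * a)) ^ 2 - (4 * p * c * α) ^ 2 := by
  have Kt : K * t ≤ 1 / 8 := by nlinarith [mul_pos (by linarith : 0 < K) t0]
  have t1 : t ≤ 1 / 8 := by nlinarith
  have α0 : 0 < α := by by_contra g; nlinarith
  have a0 : 0 < a := by by_contra g; nlinarith
  have τt : 0 < τ * t := by positivity
  have u0 := abs_nonneg u
  have y0 := abs_nonneg y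
  have c0 := abs_nonneg c
  rw [abs_mul] at hy
  have g0 : |y| * |c| ≤ 1 / 8 := by
    have : 1 ≤ (|u| + 1) * β := one_le_mul_of_one_le_of_one_le (by linarith) β1
    nlinarith [mul_nonneg y0 c0]
  have g1 : |y| * (α * a) ≤ 1 / 8 := (mul_le_mul_of_nonneg_left hc y0).trans g0
  have g2 : |y| ≤ τ * t := by
    have : 1 ≤ α * τ * (a * t) := one_le_mul_of_one_le_of_one_le h2 h1
    nlinarith [mul_le_mul_of_nonneg_left this y0]
  have g3 : |q| * (α * a) ≤ 1 / 4 := by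
    have e1 := mul_le_mul_of_nonneg_right hq (mul_pos α0 a0).le
    have e2 : α * τ * (a * t) ≤ β * 2 := mul_le_mul h4 h3 (by linarith) (by linarith)
    have e3 := mul_le_mul_of_nonneg_left e2 (mul_pos (by linarith : 0 < K) t0).le
    nlinarith
  have g4 : |(q + y) * (α * a)| ≤ 1 / 2 := by
    rw [abs_mul, abs_of_pos (mul_pos α0 a0)]
    nlinarith [mul_le_mul_of_nonneg_right (abs_add_le q y) (mul_pos α0 a0).le]
  have g5 := hp (by nlinarith)
  have g6 : |p'| ≤ |u| * τ + K * (τ * t) := by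
    have := abs_sub_abs_le_abs_sub p' (u * τ)
    rw [abs_mul, abs_of_pos τ0] at this
    linarith
  have g7 : |p| ≤ |y| * ((|u| + 1) * τ) := by
    have := abs_sub_abs_le_abs_sub p (p' * y)
    rw [abs_mul] at this
    rw [← sq_abs] at g5
    have e1 := mul_le_mul_of_nonneg_right g6 y0
    have e2 := mul_le_mul_of_nonneg_right (mul_le_mul_of_nonneg_left g2 (by linarith : 0 ≤ K)) y0
    have e3 := mul_le_mul_of_nonneg_right Kt (mul_nonneg τ0.le y0)
    nlinarith [mul_nonneg τ0.le y0]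
  have g8 : |4 * p * c * α| ≤ 1 / 2 := by
    rw [abs_mul, abs_mul, abs_mul, abs_of_pos α0, abs_of_pos (by norm_num : (0 : ℝ) < 4)]
    have e1 := mul_le_mul_of_nonneg_right g7 (mul_nonneg c0 α0.le)
    have e2 := mul_le_mul_of_nonneg_left h4
      (mul_nonneg (mul_nonneg y0 c0) (by linarith : 0 ≤ |u| + 1))
    nlinarith
  have e1 := pow_le_pow_left₀ (abs_nonneg _) g4 2
  have e2 := pow_le_pow_left₀ (abs_nonneg _) g8 2
  rw [sq_abs] at e1 e2
  linarith

theorem round {g : ℤ⟦X⟧} (hg : Nice g) : ∃ (p : MvPolynomial (Fin 3) ℤ) (d N : ℕ) (K : ℝ),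
    1 ≤ K ∧ ∀ (a c l : ℤ) (t : ℝ), 0 < t → K * t ≤ 1 → a * t = 1 + t ^ 2 → c ≠ 0 →
      MvPolynomial.eval ![a, c, l] p ≤ (a * c) ^ (2 * d) ∧
      (0 < MvPolynomial.eval ![a, c, l] p → |l - c * evs g t| < 1 / 2) ∧
      (|l - c * evs g t| * K ≤ 1 → a ^ N ≤ |c| →
        (a * c) ^ (2 * d) ≤ 2 * MvPolynomial.eval ![a, c, l] p) := by
  obtain ⟨P, P0, P1⟩ := sep hg.2
  set f := e2 (Polynomial.derivative P) ss g with hf
  set e := f.order.toNat with he
  set u := coeff e f with hu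
  have u0 : u ≠ 0 := coeff_order P1
  have d1 : X ^ (e + 1) ∣ f + monomial e (-u) := X_pow_dvd_iff.2 fun m hm => by
    rw [map_add, coeff_monomial]
    split_ifs with h
    · rw [h, ← hu, add_neg_cancel]
    · rw [coeff_of_lt_order_toNat m (by omega), add_zero]
  obtain ⟨T, d2⟩ := approx g (e + 2)
  set Q : Polynomial (Polynomial ℤ) := Polynomial.X - Polynomial.C T with hQ
  obtain ⟨K0, k0, b0⟩ := hg.1.small (k := 0) (by simp)
  have m1 : EB (monomial e (-u)) := by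
    rw [← one_mul (-u), ← add_zero e, ← monomial_mul_monomial, ← X_pow_eq,
      monomial_zero_eq_C_apply]
    exact (EB.var.pow e).mul (EB.const _)
  obtain ⟨K1, k1, b1⟩ := ((EB.ss.e2 hg.1 (Polynomial.derivative P)).add m1).small d1
  obtain ⟨K2, k2, b2⟩ := (EB.ss.e2 hg.1 Q).small d2
  obtain ⟨K3, k3, b3⟩ := EB.ss.small (k := 0) (by simp)
  obtain ⟨K4, k4, b4⟩ := taylor P K0
  obtain ⟨d, p, hp⟩ := ((RF.int 1).add ((RF.int (-1)).mul (((RF.e2 Q).mul
    ((RF.a.pow e).mul RF.a)).pow 2))).add ((RF.int (-1)).mul (((((RF.int 4).mul (RF.e2 P)).mul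
      RF.c).mul (RF.a.pow e)).pow 2))
  set K := K0 + K1 + K2 + K3 + K4 with hK
  have β1 : (1 : ℝ) ≤ 2 ^ e := one_le_pow₀ (by norm_num)
  have U1 : (1 : ℝ) ≤ |(u : ℝ)| := by exact_mod_cast Int.one_le_abs u0
  have K5 : 1 ≤ K := by linarith
  have K6 : 8 * K ≤ 8 * (|(u : ℝ)| + 1) * 2 ^ e * K := by
    nlinarith [mul_le_mul_of_nonneg_right (one_le_mul_of_one_le_of_one_le
      (by linarith : 1 ≤ |(u : ℝ)| + 1) β1) (by linarith : 0 ≤ K)]
  refine ⟨p * (.X 0 * .X 1) ^ d, d, e + 1, 8 * (|(u : ℝ)| + 1) * 2 ^ e * K, by linarith,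
    fun a c l t t0 t1 ht c0 => ?_⟩
  have t2 : K * 2 ^ e * t ≤ 1 / 8 := by
    nlinarith [mul_pos (mul_pos (by linarith : 0 < K) (by linarith : (0 : ℝ) < 2 ^ e)) t0]
  have t3 : K * t ≤ 1 / 8 := by nlinarith [mul_pos (by linarith : 0 < K) t0]
  have t4 : t ≤ 1 / 8 := by nlinarith
  have tk : ∀ k, k ≤ K → k * t ≤ 1 := fun k hk => by nlinarith
  have a0 : (0 : ℝ) < a := by by_contra h; nlinarith
  have c1 : (c : ℝ) ≠ 0 := by exact_mod_cast c0
  obtain ⟨v0, w0⟩ := b0 t t0.le (tk _ (by linarith))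
  obtain ⟨v1, w1⟩ := b1 t t0.le (tk _ (by linarith))
  obtain ⟨v2, w2⟩ := b2 t t0.le (tk _ (by linarith))
  obtain ⟨v3, -⟩ := b3 t t0.le (tk _ (by linarith))
  have s1 : evs ss t = 1 / a := by
    have := (v3.mul ((Ev.int t 1).add ((Ev.var t).pow 2))).2
    rw [Int.cast_one, ss_mul, (Ev.var t).2, Int.cast_one, ← ht] at this
    field_simp
    exact mul_right_cancel₀ t0.ne' (by linarith)
  rw [s1] at v3
  set x := evs g t with hx
  rw [((v3.e2 v0 (Polynomial.derivative P)).add (Ev.mono t e (-u))).2] at w1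
  rw [(v3.e2 v0 Q).2] at w2
  have z : e2 P (1 / a : ℝ) x = 0 := by
    rw [← (v3.e2 v0 P).2, P0]
    simpa using (Ev.int t 0).2
  have h1 : 1 ≤ a * t := by nlinarith
  have h3 : a * t ≤ 2 := by nlinarith
  have ta := b4 (1 / a) x (l / c - x) (by
    rw [abs_of_pos (by positivity), div_le_iff₀ a0]; nlinarith) (by simpa using w0)
  rw [add_sub_cancel, z, sub_zero] at ta
  have τ0 : 0 < t ^ e := by positivity
  have τ1 : t ^ e ≤ 1 := pow_le_one₀ t0.le (by linarith)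
  have h2 : 1 ≤ (a : ℝ) ^ e * t ^ e := by rw [← mul_pow]; exact one_le_pow₀ h1
  have h4 : (a : ℝ) ^ e * t ^ e ≤ 2 ^ e := by
    rw [← mul_pow]; exact pow_le_pow_left₀ (by linarith) h3 e
  have hq : |e2 Q (1 / a : ℝ) x| ≤ K * (t ^ e * t ^ 2) := by
    rw [← pow_add]
    exact w2.trans (mul_le_mul_of_nonneg_right (by linarith) (by positivity))
  have hp' : |e2 (Polynomial.derivative P) (1 / a : ℝ) x - u * t ^ e| ≤ K * (t ^ e * t) := by
    rw [← pow_succ]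
    refine le_trans (le_of_eq ?_)
      (w1.trans (mul_le_mul_of_nonneg_right (by linarith) (by positivity)))
    congr 1
    push_cast
    ring
  have hy : |l / c - x| ≤ 1 → |e2 P (1 / a : ℝ) (l / c) -
      e2 (Polynomial.derivative P) (1 / a : ℝ) x * (l / c - x)| ≤ K * (l / c - x) ^ 2 := fun h =>
    (ta (h.trans k0)).trans (mul_le_mul_of_nonneg_right (by linarith) (sq_nonneg _))
  have ey : (l / c - x) * c = l - c * x := by field_simp
  have eq : e2 Q (1 / a : ℝ) (l / c) = e2 Q (1 / a : ℝ) x + (l / c - x) := by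
    simp only [hQ, e2, Polynomial.eval₂_sub, Polynomial.eval₂_X, Polynomial.eval₂_C]
    ring
  have W0 : (0 : ℝ) < (a * c) ^ (2 * d) := by rw [pow_mul]; positivity
  have ev : ((MvPolynomial.eval ![a, c, l] (p * (.X 0 * .X 1) ^ d) : ℤ) : ℝ) =
      (a * c) ^ (2 * d) * (1 - ((e2 Q (1 / a : ℝ) x + (l / c - x)) * (a ^ e * a)) ^ 2 -
        (4 * e2 P (1 / a : ℝ) (l / c) * c * a ^ e) ^ 2) := by
    rw [map_mul, Int.cast_mul, hp a c l (by exact_mod_cast a0.ne') c0, ← eq]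
    simp
    ring
  refine ⟨?_, fun h => ?_, fun h hc => ?_⟩
  · rw [← Int.cast_le (R := ℝ), ev]
    push_cast
    refine mul_le_of_le_one_right W0.le ?_
    linarith [sq_nonneg ((e2 Q (1 / a : ℝ) x + (l / c - x)) * (a ^ e * a)),
      sq_nonneg (4 * e2 P (1 / a : ℝ) (l / c) * c * a ^ e)]
  · rw [← Int.cast_lt (R := ℝ), ev, Int.cast_zero] at h
    rw [← ey]
    exact core_sound t0 τ0 τ1 K5 t3 h1 h2 U1 hq hp' hy ((mul_pos_iff_of_pos_left W0).1 h)
  · rw [← Int.cast_le (R := ℝ), Int.cast_mul, ev]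
    have := core_complete (c := c) t0 τ0 τ1 K5 β1 t2 h1 h2 h3 h4 hq hp' hy (by
      rw [ey]
      refine le_trans (mul_le_mul_of_nonneg_left ?_ (abs_nonneg _)) h
      exact le_mul_of_one_le_right (by positivity) K5) (by rw [← pow_succ]; exact_mod_cast hc)
    push_cast
    nlinarith

end Pool.Agent.MP_fed7c7_lc.H93
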