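import Mathlib
import Pool.Agent.MP_fed7c7_lc.H93.Round
import Pool.Agent.MP_fed7c7_lc.H7.Digit

set_option autoImplicit false

/-!
Reading two coefficients of a nice series modulo `3` by one rounding.
-/

namespace Pool.Agent.MP_fed7c7_lc.H93

open PowerSeries Finset Pool.Agent.MP_fed7c7_lc.H56 Pool.Agent.MP_fed7c7_lc.H7

theorem digit' {A : ℤ} {t g S : ℝ} (ht : 2 * A * t = 1 + t ^ 2) (t0 : 0 < t) (t1 : t ≤ 1 / 8)
    (g2 : 2 ≤ g) {n : ℕ} (hn : 1 ≤ n) (c : ℕ → ℤ) (hc : ∀ j, |(c j : ℝ)| ≤ g ^ (j + 1))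
    (hS : |S - ∑ j ∈ range (n + 1), c j * t ^ j| ≤ 2 * g ^ (n + 2) * t ^ (n + 1)) :
    ∃ M : ℤ, |(2 * A - 2) * (ps A n : ℝ) * S - (c n + (2 * A - 2) * M : ℤ)| ≤
      9 * g ^ (n + 2) * t := by
  refine ⟨∑ j ∈ range n, c j * ps A (n - j : ℕ), ?_⟩
  have A1 : (1 : ℝ) ≤ A := by by_contra h; nlinarith
  have b : ∀ j : ℕ, 0 ≤ (2 * A - 2) * (ps A j * t ^ j) ∧ (2 * A - 2) * (ps A j * t ^ j) ≤ 1 + t ∧
      (1 ≤ j → 1 - 3 * t ≤ (2 * A - 2) * (ps A j * t ^ j)) := fun j => by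
    obtain ⟨a0, a1, a2⟩ := ps_near ht t0 t1 j
    rw [mul_assoc] at a0 a1 a2
    generalize (ps A j : ℝ) * t ^ j = x at *
    have x0 : 0 ≤ x := nonneg_of_mul_nonneg_right a0 (by linarith)
    have x1 := mul_le_mul_of_nonneg_right a1 t0.le
    have x2 : 2 * A * x * t = (1 + t ^ 2) * x := by rw [← ht]; ring
    exact ⟨mul_nonneg (by linarith) x0, by nlinarith, fun h => by nlinarith [a2 h]⟩
  have e1 : ∀ j ∈ range n, (2 * A - 2) * (ps A n : ℝ) * (c j * t ^ j) -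
      (2 * A - 2) * (c j * ps A (n - j : ℕ)) =
        c j * (t ^ (n - j) * ((2 * A - 2) * (ps A j * t ^ j))) := fun j hj => by
    have := ps_shift ht t0 t1 j (n - j)
    rw [Nat.add_sub_cancel' (mem_range.1 hj).le] at this
    linear_combination (2 * A - 2) * c j * this
  have e2 : ∀ j ∈ range n, |c j * (t ^ (n - j) * ((2 * A - 2) * ((ps A j : ℝ) * t ^ j)))| ≤
      g ^ j * (g * (t * 2)) := fun j hj => by
    obtain ⟨b0, b1, -⟩ := b j
    have p2 : t ^ (n - j) ≤ t :=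
      pow_le_of_le_one t0.le (by linarith) (by have := mem_range.1 hj; omega)
    rw [abs_mul, abs_of_nonneg (mul_nonneg (by positivity) b0), ← mul_assoc (g ^ j), ← pow_succ]
    exact mul_le_mul (hc j) (mul_le_mul p2 (by linarith) b0 t0.le) (by positivity) (by positivity)
  have e3 : ∑ j ∈ range n, g ^ j ≤ g ^ n := by
    have := geom_sum_mul g n
    have h : 0 ≤ ∑ j ∈ range n, g ^ j := by positivity
    nlinarith
  have s1 := (abs_sum_le_sum_abs _ _).trans (sum_le_sum e2)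
  rw [← sum_congr rfl e1, sum_sub_distrib, ← mul_sum, ← mul_sum, ← sum_mul] at s1
  rw [sum_range_succ] at hS
  push_cast at s1 ⊢
  generalize ∑ j ∈ range n, (c j : ℝ) * ps A (n - j : ℕ) = M at *
  generalize ∑ j ∈ range n, (c j : ℝ) * t ^ j = P at *
  obtain ⟨a0, a1, a2⟩ := b n
  have a3 := a2 hn
  rw [← mul_assoc] at a0 a1 a3
  have p0 : 0 < t ^ n := by positivity
  have c0 : 0 ≤ (2 * A - 2) * (ps A n : ℝ) := nonneg_of_mul_nonneg_left a0 p0
  generalize (2 * A - 2) * (ps A n : ℝ) = y at *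
  have q0 : 0 < g ^ (n + 2) * t := by positivity
  have q1 : g ^ (n + 1) * t ≤ g ^ (n + 2) * t :=
    mul_le_mul_of_nonneg_right (pow_le_pow_right₀ (by linarith) (by omega)) t0.le
  have f1 : |y * (S - (P + c n * t ^ n))| ≤ 4 * (g ^ (n + 2) * t) := by
    rw [abs_mul, abs_of_nonneg c0]
    calc _ ≤ y * (2 * g ^ (n + 2) * t ^ (n + 1)) := mul_le_mul_of_nonneg_left hS c0
      _ = y * t ^ n * (2 * (g ^ (n + 2) * t)) := by ring
      _ ≤ 2 * (2 * (g ^ (n + 2) * t)) := mul_le_mul_of_nonneg_right (by linarith) (by positivity)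
      _ = _ := by ring
  have f2 : |c n * (y * t ^ n - 1)| ≤ 3 * (g ^ (n + 1) * t) := by
    rw [abs_mul]
    refine (mul_le_mul (hc n) (show _ ≤ 3 * t from abs_le.2 ⟨by linarith, by linarith⟩)
      (abs_nonneg _) (by positivity)).trans (le_of_eq (by ring))
  have f4 := mul_le_mul_of_nonneg_right e3 (show 0 ≤ g * (t * 2) by positivity)
  rw [show g ^ n * (g * (t * 2)) = 2 * (g ^ (n + 1) * t) by ring] at f4
  rw [abs_le] at f1 f2 s1 ⊢
  constructor <;> linarith [f1.1, f1.2, f2.1, f2.2, s1.1, s1.2]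

theorem exists_t {A : ℤ} (hA : 1 ≤ A) : ∃ t : ℝ, 0 < t ∧ A * t ≤ 1 ∧ 2 * A * t = 1 + t ^ 2 := by
  have h : (1 : ℝ) ≤ A := by exact_mod_cast hA
  have h1 := Real.sq_sqrt (show (0 : ℝ) ≤ A ^ 2 - 1 by nlinarith)
  have h2 := Real.sqrt_nonneg ((A : ℝ) ^ 2 - 1)
  generalize √((A : ℝ) ^ 2 - 1) = s at *
  have h3 : s < A := by by_contra g; nlinarith
  have h4 : A - s ≤ 1 := by by_contra g; nlinarith
  exact ⟨A - s, by linarith, by nlinarith, by linarith⟩

open Classical in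
theorem read {T : ℕ → Prop} (hT : Good T) : ∃ (p : MvPolynomial (Fin 3) ℤ) (d N : ℕ) (K : ℤ),
    1 ≤ K ∧ (∀ A c l : ℤ, K ≤ A → c ≠ 0 →
      MvPolynomial.eval ![2 * A, c, l] p ≤ (2 * A * c) ^ (2 * d)) ∧
    ∀ (A e c : ℤ) (m n : ℕ), e = 1 ∨ e = -1 → 1 ≤ m → m ≤ n → K ^ n ≤ A → 3 ∣ A - 1 →
      c = (2 * A - 2) * (e * ps A m + ps A n) → c ≠ 0 → ∃ L : ℤ,
        (L : ZMod 3) = e * (if T m then 1 else 0) + (if T n then 1 else 0) ∧
        (∀ l, 0 < MvPolynomial.eval ![2 * A, c, l] p → l = L) ∧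
        (e = 1 → N ≤ n → (2 * A * c) ^ (2 * d) ≤ 2 * MvPolynomial.eval ![2 * A, c, L] p) := by
  obtain ⟨f, f1, f2, -⟩ := hT
  obtain ⟨p, d, N, K, K1, h⟩ := round f1
  obtain ⟨g0, g1, hg⟩ := f1.1
  obtain ⟨g, g2, hg⟩ : ∃ g : ℝ, 2 ≤ g ∧ ∀ m, |((coeff m f : ℤ) : ℝ)| ≤ g ^ (m + 1) :=
    ⟨2 * g0, by linarith, fun m =>
      (hg m).trans (pow_le_pow_left₀ (by linarith) (by linarith) _)⟩
  obtain ⟨k, hk⟩ := exists_nat_ge (36 * K * g ^ 3)
  have g3 : g ≤ g ^ 3 := le_self_pow₀ (by linarith) (by omega)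
  have k1 : 36 * g ≤ k := by nlinarith
  have k2 : 36 * K ≤ k := by nlinarith
  have k3 : (1 : ℤ) ≤ k := by
    have : (1 : ℝ) ≤ k := by linarith
    exact_mod_cast this
  refine ⟨p, d, 2 * N + 1, k, k3, fun A c l hA c0 => ?_, fun A e c m n he m1 mn hA d3 hc c0 => ?_⟩
  · obtain ⟨t, t0, t1, ht⟩ := exists_t (k3.trans hA)
    have : (k : ℝ) ≤ A := by exact_mod_cast hA
    exact (h (2 * A) c l t t0 (by nlinarith) (by push_cast; exact ht) c0).1
  have A0 : (k : ℤ) ≤ A := (le_self_pow₀ k3 (by omega)).trans hA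
  obtain ⟨t, t0, t1, ht⟩ := exists_t (k3.trans A0)
  have A1 : (k : ℝ) ≤ A := by exact_mod_cast A0
  have A2 : (k : ℝ) ^ n ≤ A := by exact_mod_cast hA
  have A3 : 36 * K * g ^ (n + 2) * t ≤ 1 := by
    obtain ⟨j, rfl⟩ := Nat.exists_eq_add_of_le' (m1.trans mn)
    have : 36 * K * g ^ 3 * g ^ j ≤ k * k ^ j :=
      mul_le_mul hk (pow_le_pow_left₀ (by linarith) (by linarith) j) (by positivity) (by linarith)
    rw [pow_succ'] at A2
    refine le_trans (mul_le_mul_of_nonneg_right ?_ t0.le) t1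
    calc _ = 36 * K * g ^ 3 * g ^ j := by ring
      _ ≤ _ := this.trans A2
  have t2 : t ≤ 1 / 8 := by nlinarith
  obtain ⟨-, tl⟩ := tail (by linarith) t0.le (by nlinarith) hg
  obtain ⟨M1, h1⟩ := digit' ht t0 t2 g2 m1 (fun j => coeff j f) hg (tl (m + 1))
  obtain ⟨M2, h2⟩ := digit' ht t0 t2 g2 (m1.trans mn) (fun j => coeff j f) hg (tl (n + 1))
  set L := e * (coeff m f + (2 * A - 2) * M1) + (coeff n f + (2 * A - 2) * M2) with hL
  have q1 : g ^ (m + 2) * t ≤ g ^ (n + 2) * t :=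
    mul_le_mul_of_nonneg_right (pow_le_pow_right₀ (by linarith) (by omega)) t0.le
  have h3 : |L - c * evs f t| * K ≤ 1 / 2 := by
    have : |L - c * evs f t| ≤ 18 * (g ^ (n + 2) * t) := by
      rw [abs_le] at h1 h2 ⊢
      rw [hL, hc]
      push_cast at h1 h2 ⊢
      rcases he with rfl | rfl <;> push_cast <;> constructor <;> linarith [h1.1, h1.2, h2.1, h2.2]
    nlinarith [mul_le_mul_of_nonneg_right this (by linarith : 0 ≤ K)]
  have h4 := fun l => h (2 * A) c l t t0 (by nlinarith) (by push_cast; exact ht) c0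
  refine ⟨L, ?_, fun l hl => ?_, fun e1 hN => (h4 L).2.2 (by linarith) ?_⟩
  · have r : ∀ j, ((coeff j f : ℤ) : ZMod 3) = if T j then 1 else 0 := fun j => by
      have := congrArg (coeff j) f2
      rwa [coeff_map, ind, coeff_mk] at this
    have z : ((A - 1 : ℤ) : ZMod 3) = 0 := (ZMod.intCast_zmod_eq_zero_iff_dvd _ 3).2 d3
    rw [hL, ← r, ← r]
    push_cast at z ⊢
    linear_combination (2 * e * M1 + 2 * M2) * z
  · have h5 := (h4 l).2.1 hl
    have h6 : |L - c * evs f t| ≤ 1 / 2 :=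
      (le_mul_of_one_le_right (abs_nonneg _) K1).trans h3
    have : |((l - L : ℤ) : ℝ)| < 1 := by
      rw [abs_lt] at h5 ⊢
      rw [abs_le] at h6
      push_cast
      constructor <;> linarith [h5.1, h5.2, h6.1, h6.2]
    have := Int.abs_lt_one_iff.1 (show |l - L| < 1 by exact_mod_cast this)
    omega
  · have A4 : 2 ≤ A := by
      have : (2 : ℝ) ≤ A := by linarith
      exact_mod_cast this
    obtain ⟨j, rfl⟩ := Nat.exists_eq_add_of_le' (m1.trans mn)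
    have b1 := (ps_bounds (A := A) (by omega) j).1
    have b2 := ps_nonneg (A := A) (by omega) (n := m) (by omega)
    have b3 : (2 * A) ^ N ≤ (2 * A - 1) ^ j :=
      calc _ ≤ ((2 * A - 1) ^ 2) ^ N := pow_le_pow_left₀ (by omega) (by nlinarith) N
        _ ≤ _ := by rw [← pow_mul]; exact pow_le_pow_right₀ (by omega) (by omega)
    refine le_trans ?_ (le_abs_self c)
    have b4 : 0 ≤ (2 * A) ^ N := by positivity
    rw [hc, e1]
    push_cast
    nlinarith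

end Pool.Agent.MP_fed7c7_lc.H93
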