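import Mathlib
import Pool.Agent.MP_fed7c7_lc.H93.Read
import Pool.Agent.MP_fed7c7_lc.H93.Comb
import Pool.Agent.MP_fed7c7_lc.H21.Link

set_option autoImplicit false

/-!
The system in the five unknowns `v h g l y`.
-/

namespace Pool.Agent.MP_fed7c7_lc.H93

open Finset Pool.Agent.MP_fed7c7_lc.H56 Pool.Agent.MP_fed7c7_lc.H21

/-- The inequality. -/
noncomputable def rR (p : MvPolynomial (Fin 3) ℤ) (d : ℕ) (A C D l : ℤ) : ℤ :=
  MvPolynomial.eval ![2 * A, (2 * A - 2) * (C + D), 3 * l + 2] p * D ^ 2 -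
    (2 * A * ((2 * A - 2) * (C + D))) ^ (2 * d) * C ^ 2

section
variable {α : Type} (F : ℤ → ℤ → ℤ → ℤ → ℤ → α) (p : MvPolynomial (Fin 3) ℤ) (d : ℕ)

noncomputable def L3 (A Q C D G S l : ℤ) : α :=
  F (pl A C * Q) (pl A D * ((G ^ 2 - 1) * (S ^ 2 - 1))) ((G ^ 2 - 1) * D ^ 2) (S ^ 2 - 1)
    (rR p d A C D l)

noncomputable def L2 (a A Q C D l y : ℤ) : α := L3 F p d A Q C D (gL a A D) (sL A D y) l

noncomputable def L1 (κ u w a A Q h g l y : ℤ) : α :=
  L2 F p d a A Q (9 * h + 1) (9 * κ * (u * h + w) ^ 2 + 3 + (A - 1) * g) l y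

/-- The base of the first Pell sequence. -/
def a0 (k u w : ℤ) : ℤ := 10 + 18 * k * (u + w + 1) ^ 2

/-- The system. -/
noncomputable def L0 (k κ u w v h g l y : ℤ) : α :=
  L1 F p d κ u w (a0 k u w) (aA (a0 k u w) v) (qQ (a0 k u w) v) h g l y

end

theorem L0_eq (p : MvPolynomial (Fin 3) ℤ) (d : ℕ) (k κ u w v h g l y : ℤ) : ∃ P Q S T R : ℤ,
    ∀ {α : Type} (F : ℤ → ℤ → ℤ → ℤ → ℤ → α), L0 F p d k κ u w v h g l y = F P Q S T R :=
  ⟨_, _, _, _, _, fun _ => rfl⟩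

theorem pf_L0 {σ : Type} {F : (σ → ℤ) → ℤ → ℤ → ℤ → ℤ → ℤ → ℤ}
    (hF : ∀ {P Q S T R : (σ → ℤ) → ℤ}, PF P → PF Q → PF S → PF T → PF R →
      PF fun x => F x (P x) (Q x) (S x) (T x) (R x)) (p : MvPolynomial (Fin 3) ℤ) (d : ℕ) (k κ : ℤ)
    {u w v h g l y : (σ → ℤ) → ℤ} (hu : PF u) (hw : PF w) (hv : PF v) (hh : PF h) (hg : PF g)
    (hl : PF l) (hy : PF y) :
    PF fun x => L0 (F x) p d k κ (u x) (w x) (v x) (h x) (g x) (l x) (y x) := by
  have h3 : ∀ {A Q C D G S : (σ → ℤ) → ℤ}, PF A → PF Q → PF C → PF D → PF G → PF S →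
      PF fun x => L3 (F x) p d (A x) (Q x) (C x) (D x) (G x) (S x) (l x) := fun _ _ _ _ _ _ =>
    hF (by fun_prop) (by fun_prop) (by fun_prop) (by fun_prop) (by unfold rR; fun_prop)
  have h2 : ∀ {a A Q C D : (σ → ℤ) → ℤ}, PF a → PF A → PF Q → PF C → PF D →
      PF fun x => L2 (F x) p d (a x) (A x) (Q x) (C x) (D x) (l x) (y x) := fun _ a b c e =>
    h3 a b c e (by unfold gL; fun_prop) (by unfold sL; fun_prop)
  have h1 : ∀ {a A Q : (σ → ℤ) → ℤ}, PF a → PF A → PF Q → PF fun x =>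
      L1 (F x) p d κ (u x) (w x) (a x) (A x) (Q x) (h x) (g x) (l x) (y x) := fun a b c =>
    h2 a b c (by fun_prop) (by fun_prop)
  have h0 : PF fun x => a0 k (u x) (w x) := by unfold a0; fun_prop
  exact h1 h0 (by unfold aA; fun_prop) (by unfold qQ; fun_prop)

theorem nine (k u w v : ℤ) : 9 ∣ aA (a0 k u w) v - 1 := by
  unfold aA a0
  generalize k * (u + w + 1) ^ 2 = x
  rw [mul_assoc]
  generalize k * (u + w + 1) ^ 2 = x
  exact ⟨1 + 2 * x + (10 + 18 * x) * (1 + 2 * x) * (11 + 18 * x) * v, by ring⟩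

theorem L0_ne (p : MvPolynomial (Fin 3) ℤ) (d : ℕ) (k κ u w v h g l y : ℤ) :
    L0 (fun _ _ S _ _ => S ≠ 0) p d k κ u w v h g l y := by
  unfold L0 L1 L2 L3
  obtain ⟨e, he⟩ := nine k u w v
  have a2 : 2 ∣ a0 k u w := ⟨5 + 9 * k * (u + w + 1) ^ 2, by rw [a0]; ring⟩
  have aA' : a0 k u w ∣ aA (a0 k u w) v := dvd_mul_right _ _
  generalize aA (a0 k u w) v = A at *
  generalize a0 k u w = a at *
  refine mul_ne_zero (fun z => ?_) (pow_ne_zero 2 fun z => ?_)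
  · have G2 : 2 ∣ gL a A (9 * κ * (u * h + w) ^ 2 + 3 + (A - 1) * g) :=
      a2.add (((a2.trans aA').sub a2).mul_right _)
    rcases sq_eq_one_iff.1 (sub_eq_zero.1 z) with e | e <;> omega
  · rw [he, mul_assoc, mul_assoc] at z
    omega

theorem sq_le_pow {a : ℤ} (ha : 4 ≤ a) (j : ℕ) : a * (j + 1) ^ 2 ≤ a ^ (j + 1) := by
  rw [pow_succ' a]
  refine mul_le_mul_of_nonneg_left (le_trans ?_ (pow_le_pow_left₀ (by norm_num) ha j)) (by omega)
  have e1 : ((j + 1 : ℕ) : ℤ) ≤ 2 ^ j := by exact_mod_cast j.lt_two_pow_self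
  rw [show (4 : ℤ) = 2 ^ 2 by norm_num, ← pow_mul, mul_comm 2, pow_mul]
  exact pow_le_pow_left₀ (by omega) (by exact_mod_cast e1) 2

theorem pin {κ u w a A j i n : ℤ} (κ0 : 0 ≤ κ) (u0 : 0 ≤ u) (w0 : 0 ≤ w) (j1 : 1 ≤ j)
    (aκ : 9 * κ * (u + w) ^ 2 + 10 ≤ a) (e1 : a * j ^ 2 ≤ A) (ij : |i| ≤ j) (hn : |9 * n + 1| ≤ |i|)
    (d : A - 1 ∣ i - (9 * κ * (u * n + w) ^ 2 + 3)) : i = 9 * κ * (u * n + w) ^ 2 + 3 := by
  have e2 : (u * n + w) ^ 2 ≤ (u + w) ^ 2 * j ^ 2 := by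
    rw [← mul_pow]
    have := abs_le.1 (hn.trans ij)
    have n1 : -j ≤ n := by omega
    have n2 : n ≤ j := by omega
    exact sq_le_sq' (by nlinarith) (by nlinarith)
  have e3 := mul_le_mul_of_nonneg_left e2 (by omega : (0 : ℤ) ≤ 9 * κ)
  have e4 := mul_le_mul_of_nonneg_right aκ (sq_nonneg j)
  have e5 : (0 : ℤ) ≤ 9 * κ * (u * n + w) ^ 2 := by positivity
  have : |i - (9 * κ * (u * n + w) ^ 2 + 3)| < A - 1 := by
    rw [abs_le] at ij
    rw [abs_lt]
    constructor <;> nlinarith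
  linarith [Int.eq_zero_of_abs_lt_dvd d this]

open Classical in
theorem core {T : ℕ → Prop} (hT : Good T) (h8 : ∀ m, m % 9 = 8 → ¬T m) (κ : ℕ) (κ1 : 1 ≤ κ) :
    ∃ (p : MvPolynomial (Fin 3) ℤ) (d N : ℕ) (k : ℤ), ∀ u w : ℕ, 1 ≤ u →
      (∀ v h g l y, L0 (fun P Q S T R => IsSquare P ∧ IsSquare Q ∧ S ∣ T ∧ 0 < R)
        p d k κ u w v h g l y → ∃ n : ℕ, T (9 * n + 1) ∧ T (9 * (κ * (u * n + w) ^ 2) + 3)) ∧
      ∀ n : ℕ, N ≤ n → Even (u * n + w) → T (9 * n + 1) → T (9 * (κ * (u * n + w) ^ 2) + 3) →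
        ∃ v h g l y, L0 (fun P Q S T R => P ≠ 0 ∧ IsSquare P ∧ IsSquare Q ∧ S ∣ T ∧ 0 < R)
          p d k κ u w v h g l y := by
  obtain ⟨p, d, N, K, K1, b1, b2⟩ := read hT
  refine ⟨p, d, N, K * κ, fun u w u1 => ?_⟩
  have n9 := nine (K * κ) u w
  have s1 : (1 : ℤ) ≤ (u + w + 1) ^ 2 := one_le_pow₀ (by omega)
  have κ2 : (1 : ℤ) ≤ κ := by omega
  have aK : K + 10 ≤ a0 (K * κ) u w := by
    have := one_le_mul_of_one_le_of_one_le κ2 s1
    rw [a0]; nlinarith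
  have aκ : 9 * κ * (u + w : ℤ) ^ 2 + 10 ≤ a0 (K * κ) u w := by
    have h1 : (u + w : ℤ) ^ 2 ≤ (u + w + 1) ^ 2 := pow_le_pow_left₀ (by omega) (by omega) 2
    have h2 := mul_le_mul_of_nonneg_left h1 (by omega : (0 : ℤ) ≤ κ)
    have h3 := mul_le_mul_of_nonneg_right K1 (by positivity : (0 : ℤ) ≤ κ * (u + w + 1) ^ 2)
    have h4 : (0 : ℤ) ≤ κ * (u + w) ^ 2 := by positivity
    rw [a0]; nlinarith
  unfold L0 L1 L2 L3
  generalize a0 (K * κ) u w = a at *
  have nx : ∀ n : ℕ, n ≤ κ * (u * n + w) ^ 2 := fun n =>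
    calc n ≤ u * n + w := (Nat.le_mul_of_pos_left n u1).trans (Nat.le_add_right _ _)
      _ ≤ (u * n + w) ^ 2 := Nat.le_self_pow two_ne_zero _
      _ ≤ _ := Nat.le_mul_of_pos_left _ κ1
  refine ⟨fun v h g l y ⟨h1, h2, h3, hR⟩ => ?_, fun n hn hev t1 t2 => ?_⟩
  · have A9 := n9 v
    set A := aA a v with hA
    set C := 9 * h + 1 with hC
    set D := 9 * κ * (u * h + w) ^ 2 + 3 + (A - 1) * g with hD
    have D3 : 9 ∣ D - 3 := dv ((dvd_mul_right 9 (κ * (u * h + w) ^ 2 : ℤ)).add (A9.mul_right g))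
      (by rw [hD]; ring)
    have A0 : A ≠ 0 := by omega
    have P0 : ∀ x, 0 < pl A x := fun x => by
      have : 0 ≤ A ^ 2 - 1 := by have := sq_pos_of_ne_zero A0; omega
      unfold pl; positivity
    have co : ∀ x, IsCoprime (A ^ 2 - 1) (pl A x) := fun x => cop ⟨x ^ 2, by rw [pl]; ring⟩
    have split : ∀ x q, IsCoprime (pl A x) q → IsSquare (pl A x * q) →
        IsSquare (pl A x) ∧ IsSquare q := fun x q c s => by
      obtain ⟨e, he⟩ := sq_or c s (P0 x)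
      obtain ⟨s, hs⟩ := s
      have := P0 x
      exact ⟨⟨e, by rw [← he, sq]⟩, isSquare_of_mul (b := e) (c := s)
        (by rintro rfl; simp at he; omega) (by rw [he, hs, sq])⟩
    obtain ⟨⟨x1, q1⟩, hQ⟩ := split C _ ((co C).of_isCoprime_of_dvd_left
      ⟨a ^ 2 - 1, by rw [hA, aA_sq]; ring⟩).symm h1
    obtain ⟨q2, q3⟩ := split D _ (by
      have c1 : IsCoprime (pl A D) (a ^ 2 - 1) :=
        ((co D).of_isCoprime_of_dvd_left ⟨_, aA_sq a v⟩).symm
      rw [show gL a A D ^ 2 - 1 = a ^ 2 - 1 + pl A D * ((A - a) * (a + gL a A D)) by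
          rw [gL]; ring,
        show sL A D y ^ 2 - 1 = A ^ 2 - 1 + pl A D * (y * (A + sL A D y)) by rw [sL]; ring]
      exact (c1.add_mul_left_right _).mul_right ((co D).symm.add_mul_left_right _)) h2
    obtain ⟨j, j1, hj⟩ := aA_index (by omega) hQ
    rw [← hA] at hj
    have A1 : a ^ j ≤ A := hj ▸ pow_le_ch (by omega) j
    have A2 : a ≤ A := (le_self_pow₀ (by omega) (by omega)).trans A1
    obtain ⟨i, hi, ij⟩ := link (C := D) (y := y) (by omega) j1 (by omega) (hj ▸ q2) (hj ▸ h3)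
      (hj ▸ q3)
    rw [← hj] at hi
    obtain ⟨m, hm⟩ := exists_index (A := A) (x := x1) (y := C) (by omega) (by rw [sq, ← q1, pl])
    have c0 : (2 * A - 2) * (C + D) ≠ 0 := mul_ne_zero (by omega) (by omega)
    have W0 : 0 < (2 * A * ((2 * A - 2) * (C + D))) ^ (2 * d) := by rw [pow_mul]; positivity
    have r1 := b1 A _ (3 * l + 2) (by omega) c0
    unfold rR at hR
    have D2 : 0 < D ^ 2 := sq_pos_of_ne_zero (by omega)
    have r2 : 0 < MvPolynomial.eval ![2 * A, (2 * A - 2) * (C + D), 3 * l + 2] p := by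
      by_contra z
      nlinarith [mul_nonneg W0.le (sq_nonneg C)]
    have r3 : |m| ≤ |i| := by
      have : C ^ 2 < D ^ 2 := by
        by_contra z
        nlinarith [mul_le_mul_of_nonneg_right r1 D2.le, mul_le_mul_of_nonneg_left (not_lt.1 z) W0.le]
      rw [sq_lt_sq, hm, hi, abs_ps (by omega), abs_ps (by omega)] at this
      exact ((ps_strictMono (by omega)).lt_iff_lt.1 this).le
    have d1 : A - 1 ∣ C - m := hm ▸ ps_index A m
    obtain ⟨n, hn⟩ : ∃ n, m = 9 * n + 1 := ⟨m / 9, by have := A9.trans d1; omega⟩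
    have ei : i = 9 * κ * (u * n + w) ^ 2 + 3 := by
      have d2 : A - 1 ∣ i - (9 * κ * (u * n + w) ^ 2 + 3) :=
        dv (((dvd_mul_right (A - 1) g).sub (ps_index A i)).add
          (d1.mul_right (κ * u * (u * h + u * n + 2 * w)))) (by rw [← hi, hD, hC, hn]; ring)
      obtain ⟨j, rfl⟩ := Nat.exists_eq_add_of_le' j1
      exact pin (j := j + 1) (by omega) (by omega) (by omega) (by omega) aκ
        ((sq_le_pow (a := a) (by omega) j).trans A1) (by exact_mod_cast ij) (hn ▸ r3) d2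
    have i0 : 0 < i := by rw [ei]; positivity
    obtain ⟨X, hX⟩ := Int.eq_ofNat_of_zero_le i0.le
    have A3 : K ^ X ≤ A := ((pow_le_pow_left₀ (by omega) (show K ≤ a by omega) X).trans
      (pow_le_pow_right₀ (by omega) (by have := le_abs_self i; omega))).trans A1
    rw [abs_of_pos i0] at r3
    rcases le_or_gt 0 n with n0 | n0
    · obtain ⟨n, rfl⟩ := Int.eq_ofNat_of_zero_le n0
      obtain ⟨L, l1, l2, -⟩ := b2 A 1 _ (9 * n + 1) X (.inl rfl) (by omega)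
        (by have := le_abs_self m; omega) A3 (by omega)
        (by rw [← hX, ← hi, one_mul]; push_cast; rw [← hn, ← hm]) c0
      rw [← l2 _ r2] at l1
      obtain rfl : X = 9 * (κ * (u * n + w) ^ 2) + 3 := by
        have : (X : ℤ) = (9 * (κ * (u * n + w) ^ 2) + 3 : ℕ) := by push_cast; linarith
        exact_mod_cast this
      refine ⟨n, ?_⟩
      push_cast at l1
      rw [show (3 : ZMod 3) = 0 from rfl] at l1
      split_ifs at l1 with g1 g2
      · exact ⟨g1, g2⟩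
      all_goals exact absurd l1 (by simp only [zero_mul]; decide)
    · obtain ⟨M, hM⟩ := Int.eq_ofNat_of_zero_le (show 0 ≤ -m by omega)
      obtain ⟨L, l1, l2, -⟩ := b2 A (-1) _ M X (.inr rfl) (by omega)
        (by have := neg_le_abs m; omega) A3 (by omega)
        (by rw [← hX, ← hi, ← hM, ps_neg, ← hm, neg_mul_neg, one_mul]) c0
      rw [← l2 _ r2, if_neg (h8 M (by omega))] at l1
      push_cast at l1
      rw [show (3 : ZMod 3) = 0 from rfl] at l1
      split_ifs at l1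
      all_goals exact absurd l1 (by simp only [zero_mul]; decide)
  · obtain ⟨s, hs⟩ : ∃ s, 9 * (κ * (u * n + w) ^ 2) + 3 = 2 * s + 1 := by
      obtain ⟨e, he⟩ := hev
      exact ⟨18 * (κ * e ^ 2) + 1, by rw [he]; ring⟩
    have nX := nx n
    set X := 9 * (κ * (u * n + w) ^ 2) + 3 with hX
    obtain ⟨v, hv⟩ := aA_complete a s
    have A9 := n9 v
    set A := aA a v with hA
    rw [show (2 * s + 1 : ℤ) = X by rw [hs]; push_cast; ring] at hv
    have A1 : a ^ X ≤ A := hv ▸ pow_le_ch (by omega) X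
    have A2 : a ≤ A := (le_self_pow₀ (by omega) (by omega)).trans A1
    obtain ⟨y, z, hy⟩ := link_complete a A _ hv
    have d1 := ps_index A (9 * n + 1 : ℕ)
    have C1 : 0 < ps A (9 * n + 1 : ℕ) := ps_zero A ▸ ps_strictMono (by omega) (by omega)
    have C2 : 2 * ps A (9 * n + 1 : ℕ) ≤ ps A X := by
      refine le_trans ?_ ((ps_strictMono (by omega)).monotone
        (show ((9 * n + 1 : ℕ) : ℤ) + 1 ≤ X by omega))
      rw [ps_succ]
      nlinarith [ch_pos (A := A) (by omega) (9 * n + 1 : ℕ)]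
    set C := ps A (9 * n + 1 : ℕ) with hC
    set D := ps A X with hD
    obtain ⟨h, hh⟩ : ∃ h, C = 9 * h + 1 := ⟨C / 9, by have := A9.trans d1; omega⟩
    obtain ⟨g, hg⟩ : A - 1 ∣ D - (9 * κ * (u * h + w) ^ 2 + 3) :=
      dv ((ps_index A X).sub (d1.mul_right (κ * u * (u * h + u * n + 2 * w))))
        (by rw [← hD, hh, hX]; push_cast; ring)
    have c0 : (2 * A - 2) * (C + D) ≠ 0 := mul_ne_zero (by omega) (by omega)
    obtain ⟨L, l1, -, l3⟩ := b2 A 1 _ (9 * n + 1) X (.inl rfl) (by omega) (by omega)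
      ((pow_le_pow_left₀ (by omega) (show K ≤ a by omega) X).trans A1) (by omega)
      (by rw [one_mul]) c0
    rw [if_pos t1, if_pos t2] at l1
    obtain ⟨l, hl⟩ : (3 : ℤ) ∣ L - 2 := (ZMod.intCast_zmod_eq_zero_iff_dvd _ 3).1 (by
      push_cast at l1 ⊢; rw [l1]; rfl)
    have hQ : qQ a v = ps a X ^ 2 := by
      have h1 := aA_sq a v
      rw [← hA, hv, pell, add_sub_cancel_right] at h1
      exact (mul_left_cancel₀ (by nlinarith) h1).symm
    refine ⟨v, h, g, l, y, ?_⟩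
    rw [← hA, ← hh, show 9 * κ * (u * h + w) ^ 2 + 3 + (A - 1) * g = D by linarith]
    refine ⟨mul_ne_zero (pl_pos (by omega) _).ne' ?_,
      ⟨ch A (9 * n + 1 : ℕ) * ps a X, by rw [hQ, pl, hC, ← pell]; ring⟩,
      ⟨ch A X * ((gL a A D ^ 2 - 1) * D * z), by rw [hy, pl, hD, ← pell]; ring⟩, ⟨_, hy⟩, ?_⟩
    · rw [hQ]
      exact pow_ne_zero 2 fun e => by have := ps_eq_zero (by omega) e; omega
    · have W0 : 0 < (2 * A * ((2 * A - 2) * (C + D))) ^ (2 * d) := by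
        have : A ≠ 0 := by omega
        rw [pow_mul]; positivity
      have l4 := l3 rfl (by omega)
      unfold rR
      rw [show 3 * l + 2 = L by omega]
      have e1 : 4 * C ^ 2 ≤ D ^ 2 := by nlinarith only [C1, C2]
      have e2 : 0 < C ^ 2 := by positivity
      linarith only [mul_le_mul_of_nonneg_right l4 (sq_nonneg D),
        mul_le_mul_of_nonneg_left e1 W0.le, mul_pos W0 e2]

end Pool.Agent.MP_fed7c7_lc.H93
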