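import Mathlib
import Pool.Agent.MP_fed7c7_lc.H93.Glue
import Pool.Agent.MP_fed7c7_lc.H90.One
import Pool.Agent.MP_fed7c7_lc.H44.Two
import Pool.Agent.MP_fed7c7_lc.H15.Dig
import Pool.Agent.MP_fed7c7_lc.H19.Tab

set_option autoImplicit false

/-!
Undecidable equations in five integer unknowns and one nonnegative unknown, and in eight integer
unknowns.
-/

namespace Pool.Agent.MP_fed7c7_lc.H93

open Finset Pool.Agent.MP_fed7c7_lc.H56

theorem good_S1 {w : ℕ} (hw : 1 ≤ w) (r : ℕ) : Good (S1 (3 ^ w) r) :=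
  ((((ch_zero hw (L := (· = 0)) rfl).next hw (by omega) _).next hw (by omega) _).next hw
    (by omega) _).1

theorem good_S2 {w : ℕ} (hw : 1 ≤ w) (r : ℕ) (W : ℕ → ℕ → ℕ → ℕ → Prop) :
    Good (S2 (3 ^ w) r W) :=
  ((((ch_zero hw (L := Even) Even.zero).next hw (fun _ => Nat.not_odd_iff_even.2) _).next hw
    (fun _ h => h.elim) _).next hw (by
      rintro d ⟨x, hx, y, hy, z, hz, v, hv, rfl, h⟩ ⟨x', hx', y', hy', v', hv', e, h'⟩
      obtain ⟨rfl, -, rfl, -⟩ := H44.wv_inj hx hz hv hx' (by omega) hv' e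
      tauto) _).1

theorem primrec_inw (B f c e : ℕ) : Primrec (inw B f c e) := by
  have h : ∀ c : ℕ, Primrec fun a => c * B ^ (a + 1) := fun c =>
    Primrec.nat_mul.comp (Primrec.const c) (primrec_pow.comp (Primrec.const B) Primrec.succ)
  refine Primrec.nat_add.comp (Primrec.nat_add.comp (Primrec.const _) ?_) (h _)
  refine (Primrec.nat_rec₁ 0 (f := fun i s => s + (2 * c + 2) * B ^ (i + 1))
    (Primrec.nat_add.comp Primrec.snd ((h _).comp Primrec.fst))).of_eq fun a => ?_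
  induction a with
  | zero => rfl
  | succ a ih => rw [sum_range_succ, ← ih]

theorem even_num {B : ℕ} (hB : Odd B) (r k N m : ℕ) (G : ℕ → ℕ) : Even (num B r k N m G) := by
  rw [num, sum_range_succ, add_assoc _ _ (B ^ m)]
  refine ((even_sum _ fun i hi => Even.mul_right ?_ _).add ?_).add (Even.mul_right ⟨r + 1, by ring⟩ _)
  · rw [lt, if_pos (mem_range.1 hi)]
    exact ⟨G i + 1, by ring⟩
  · rw [lt, if_neg (lt_irrefl N), if_pos rfl, one_mul]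
    exact hB.pow.add_odd hB.pow

theorem track : ∃ (U T : ℕ → Prop) (κ : ℕ) (u w : ℕ → ℕ), ¬ComputablePred U ∧ Good T ∧
    (∀ m, m % 9 = 8 → ¬T m) ∧ 1 ≤ κ ∧ Primrec u ∧ Primrec w ∧ ∀ a, 1 ≤ u a ∧
      ((∃ n, T (9 * n + 1) ∧ T (9 * (κ * (u a * n + w a) ^ 2) + 3)) → U a) ∧
      (U a → ∀ M, ∃ n, M ≤ n ∧ Even (u a * n + w a) ∧ T (9 * n + 1) ∧
        T (9 * (κ * (u a * n + w a) ^ 2) + 3)) := by
  obtain ⟨U, r, f, c, e, W, hU, hf, hc, he, h⟩ := H19.tab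
  obtain ⟨s, s1, hs⟩ : ∃ s, 1 ≤ s ∧ 100 * (2 * r + 2) ^ 4 ≤ 3 ^ s :=
    ⟨_, Nat.pos_of_ne_zero (by positivity), (Nat.lt_pow_self (by omega)).le⟩
  have g := (good_S1 s1 r).two (good_S2 s1 r W)
  have odd : Odd (3 ^ s) := Odd.pow (by decide)
  have B2 : 2 ≤ 3 ^ s := (by norm_num : 2 ≤ 3 ^ 1).trans (Nat.pow_le_pow_right (by omega) s1)
  generalize 3 ^ s = B at *
  have e1 : ∀ n, ((9 * n + 1) % 9 = 1 ∧ S1 B r ((9 * n + 1) / 9) ∨
      (9 * n + 1) % 9 = 3 ∧ S2 B r W ((9 * n + 1) / 9)) ↔ S1 B r n := fun n => by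
    rw [show (9 * n + 1) % 9 = 1 by omega, show (9 * n + 1) / 9 = n by omega]; simp
  have e2 : ∀ n, ((9 * n + 3) % 9 = 1 ∧ S1 B r ((9 * n + 3) / 9) ∨
      (9 * n + 3) % 9 = 3 ∧ S2 B r W ((9 * n + 3) / 9)) ↔ S2 B r W n := fun n => by
    rw [show (9 * n + 3) % 9 = 3 by omega, show (9 * n + 3) / 9 = n by omega]; simp
  refine ⟨U, _, (2 * r + 2) ^ 2 + B, fun a => B ^ (a + 2), inw B f c e, hU, g, by omega, by omega,
    primrec_pow.comp (Primrec.const B) (Primrec.succ.comp Primrec.succ), primrec_inw B f c e,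
    fun a => ⟨Nat.pos_of_ne_zero (by positivity), ?_, fun hu M => ?_⟩⟩
  · simp only [e1, e2]
    rintro ⟨n, h1, h2⟩
    obtain ⟨k, N, m, G, k1, n1, m1, g1, g2, g3, g4, ex⟩ :=
      (H90.one B r f c e a _ hs hf hc he).1 ⟨n, h1, rfl⟩
    rw [ex] at h2
    exact (h a).2 ⟨k, N, G, k1, n1, g1, g2, g3, g4, (H44.two B r k N m _ G W B2 k1 (by omega) m1 g4
      (H15.digs B r k N m G hs (by omega) g4)).1 h2⟩
  · simp only [e1, e2]
    obtain ⟨k, N, G, k1, n1, g1, g2, g3, g4, g5⟩ := (h a).1 hu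
    set m := 2 * N + 2 + (B ^ (a + 2) * M + inw B f c e a) with hm
    obtain ⟨n, h1, ex⟩ := (H90.one B r f c e a _ hs hf hc he).2
      ⟨k, N, m, G, k1, n1, by omega, g1, g2, g3, g4, rfl⟩
    refine ⟨n, ?_, ex ▸ even_num odd r k N m G, h1, ex ▸ (H44.two B r k N m _ G W B2 k1 (by omega)
      (by omega) g4 (H15.digs B r k N m G hs (by omega) g4)).2 (by omega) g5⟩
    have h2 : m < B ^ m := Nat.lt_pow_self B2
    have h3 : B ^ m ≤ num B r k N m G := by unfold num; omega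
    exact (Nat.lt_of_mul_lt_mul_left (a := B ^ (a + 2)) (by omega)).le

/-- An undecidable set reduces to systems of two squares, one divisibility and one inequality in
five unknowns. -/
theorem system : ∃ (U : ℕ → Prop) (u w : ℕ → ℕ) (p : MvPolynomial (Fin 3) ℤ) (d : ℕ) (k κ : ℤ),
    ¬ComputablePred U ∧ Primrec u ∧ Primrec w ∧ ∀ a,
      (∀ v h g l y, L0 (fun P Q S T R => IsSquare P ∧ IsSquare Q ∧ S ∣ T ∧ 0 < R)
        p d k κ (u a) (w a) v h g l y → U a) ∧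
      (U a → ∃ v h g l y, L0 (fun P Q S T R => P ≠ 0 ∧ IsSquare P ∧ IsSquare Q ∧ S ∣ T ∧ 0 < R)
        p d k κ (u a) (w a) v h g l y) := by
  obtain ⟨U, T, κ, u, w, hU, hT, h8, κ1, hu, hw, h⟩ := track
  obtain ⟨p, d, N, k, g⟩ := core hT h8 κ κ1
  refine ⟨U, u, w, p, d, k, κ, hU, hu, hw, fun a => ?_⟩
  obtain ⟨u1, h1, h2⟩ := h a
  obtain ⟨g1, g2⟩ := g (u a) (w a) u1
  refine ⟨fun v h g l y e => h1 (g1 v h g l y e), fun e => ?_⟩
  obtain ⟨n, n1, n2, n3, n4⟩ := h2 e N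
  exact g2 n n1 n2 n3 n4

theorem reduction6 : ∃ (U : ℕ → Prop) (c : ℕ → List (ℤ × (Fin 6 → ℕ))), ¬ComputablePred U ∧
    Primrec c ∧ ∀ a, U a ↔ ∃ x : Fin 6 → ℤ, 0 ≤ x 5 ∧ ev (c a) x = 0 := by
  obtain ⟨U, u, w, p, d, k, κ, hU, hu, hw, h⟩ := system
  obtain ⟨c, h1, h2⟩ := exists_code' (F := fun u w (x : Fin 6 → ℤ) =>
    L0 (fun P Q S T R => cb P Q S T R (x 5)) p d k κ u w (x 0) (x 1) (x 2) (x 3) (x 4))
    (pf_L0 (F := fun (v : Fin 8 → ℤ) P Q S T R => cb P Q S T R (v (5 : Fin 6).succ.succ))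
      (fun a b c d e => pf_cb a b c d e (PF.proj _)) p d k κ (PF.proj _) (PF.proj _) (PF.proj _)
      (PF.proj _) (PF.proj _) (PF.proj _) (PF.proj _)) hu hw
  refine ⟨U, c, hU, h1, fun a => ⟨fun e => ?_, fun ⟨x, x0, e⟩ => ?_⟩⟩
  · obtain ⟨v, h, g, l, y, e⟩ := (h a).2 e
    obtain ⟨P, Q, S, T, R, E⟩ := L0_eq p d k κ (u a) (w a) v h g l y
    rw [E] at e
    obtain ⟨z, z0, e⟩ := cb_complete e.2.1 e.2.2.1 e.2.2.2.1 e.2.2.2.2
    exact ⟨![v, h, g, l, y, z], z0, (h2 a _).symm.trans ((E _).trans e)⟩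
  · rw [← h2] at e
    refine (h a).1 (x 0) (x 1) (x 2) (x 3) (x 4) ?_
    have n := L0_ne p d k κ (u a) (w a) (x 0) (x 1) (x 2) (x 3) (x 4)
    obtain ⟨P, Q, S, T, R, E⟩ := L0_eq p d k κ (u a) (w a) (x 0) (x 1) (x 2) (x 3) (x 4)
    rw [E] at e n ⊢
    exact cb_sound n x0 e

theorem reduction8 : ∃ (U : ℕ → Prop) (c : ℕ → List (ℤ × (Fin 8 → ℕ))), ¬ComputablePred U ∧
    Primrec c ∧ ∀ a, U a ↔ ∃ x : Fin 8 → ℤ, ev (c a) x = 0 := by
  obtain ⟨U, u, w, p, d, k, κ, hU, hu, hw, h⟩ := system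
  obtain ⟨c, h1, h2⟩ := exists_code' (F := fun u w (x : Fin 8 → ℤ) =>
    L0 (fun P Q S T R => cz P Q S T R (x 5) (x 6) (x 7)) p d k κ u w (x 0) (x 1) (x 2) (x 3) (x 4))
    (pf_L0 (F := fun (v : Fin 10 → ℤ) P Q S T R => cz P Q S T R (v (5 : Fin 8).succ.succ)
      (v (6 : Fin 8).succ.succ) (v (7 : Fin 8).succ.succ))
      (fun a b c d e => pf_cz a b c d e (PF.proj _) (PF.proj _) (PF.proj _)) p d k κ (PF.proj _)
      (PF.proj _) (PF.proj _) (PF.proj _) (PF.proj _) (PF.proj _) (PF.proj _)) hu hw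
  refine ⟨U, c, hU, h1, fun a => ⟨fun e => ?_, fun ⟨x, e⟩ => ?_⟩⟩
  · obtain ⟨v, h, g, l, y, e⟩ := (h a).2 e
    obtain ⟨P, Q, S, T, R, E⟩ := L0_eq p d k κ (u a) (w a) v h g l y
    rw [E] at e
    obtain ⟨s, t, z, e⟩ := cz_complete e.1 e.2.1 e.2.2.1 e.2.2.2.1 e.2.2.2.2
    exact ⟨![v, h, g, l, y, s, t, z], (h2 a _).symm.trans ((E _).trans e)⟩
  · rw [← h2] at e
    refine (h a).1 (x 0) (x 1) (x 2) (x 3) (x 4) ?_
    have n := L0_ne p d k κ (u a) (w a) (x 0) (x 1) (x 2) (x 3) (x 4)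
    obtain ⟨P, Q, S, T, R, E⟩ := L0_eq p d k κ (u a) (w a) (x 0) (x 1) (x 2) (x 3) (x 4)
    rw [E] at e n ⊢
    exact cz_sound n e

end Pool.Agent.MP_fed7c7_lc.H93
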